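import Pool.Agent.Lib.MP_ca1f03_al.Nil.Alg

namespace Pool.Agent.Lib.MP_ca1f03_al.Nil

variable {A B C Z : Type*} [AddCommGroup A] [AddCommGroup B] [AddCommGroup C] [AddCommGroup Z]

theorem Hyp.comap {Δ : A → A → A → Z} (h : Hyp Δ) (m : C →+ A) (s : Z →+ Z) :
    Hyp fun c x y => s (Δ (m c) (m x) (m y)) := by
  refine ⟨fun c b a g t => ?_, fun b a g t => ?_, fun a g t => ?_, fun b g t => ?_,
    fun c x => ?_, fun c y => ?_, fun c x y => ?_⟩
  · simpa only [EE, Hd, map_add, map_sub, map_neg] using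
      congrArg s (h.hR (m c) (m b) (m a) (m g) (m t))
  · simpa only [EE, Hd, map_add, map_sub, map_neg] using
      congrArg s (h.hS (m b) (m a) (m g) (m t))
  · simpa only [EE, Hd, map_add, map_sub, map_neg, map_zero] using
      congrArg s (h.z1 (m a) (m g) (m t))
  · simpa only [EE, Hd, map_add, map_sub, map_neg, map_zero] using
      congrArg s (h.z2 (m b) (m g) (m t))
  · simpa only [map_sub, map_zero] using congrArg s (h.n1 (m c) (m x))
  · simpa only [map_zero] using congrArg s (h.n0 (m c) (m y))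
  · simpa only [map_sub, map_add] using congrArg s (h.hI (m c) (m x) (m y))

theorem Hyp.of_local {Δ : B → B → B → Z} (T : ℕ → AddSubgroup B) (hT : Monotone T)
    (hall : ∀ b, ∃ K, b ∈ T K) (h : ∀ K, Hyp fun c x y : T K => Δ c x y) : Hyp Δ := by
  have five : ∀ c b a g t : B, ∃ K, c ∈ T K ∧ b ∈ T K ∧ a ∈ T K ∧ g ∈ T K ∧ t ∈ T K := by
    intro c b a g t
    obtain ⟨k1, h1⟩ := hall c
    obtain ⟨k2, h2⟩ := hall b
    obtain ⟨k3, h3⟩ := hall a
    obtain ⟨k4, h4⟩ := hall g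
    obtain ⟨k5, h5⟩ := hall t
    exact ⟨k1 + k2 + k3 + k4 + k5, hT (by omega) h1, hT (by omega) h2, hT (by omega) h3,
      hT (by omega) h4, hT (by omega) h5⟩
  refine ⟨fun c b a g t => ?_, fun b a g t => ?_, fun a g t => ?_, fun b g t => ?_,
    fun c x => ?_, fun c y => ?_, fun c x y => ?_⟩
  · obtain ⟨K, h1, h2, h3, h4, h5⟩ := five c b a g t
    exact (h K).hR ⟨c, h1⟩ ⟨b, h2⟩ ⟨a, h3⟩ ⟨g, h4⟩ ⟨t, h5⟩
  · obtain ⟨K, -, h2, h3, h4, h5⟩ := five b b a g t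
    exact (h K).hS ⟨b, h2⟩ ⟨a, h3⟩ ⟨g, h4⟩ ⟨t, h5⟩
  · obtain ⟨K, -, -, h3, h4, h5⟩ := five a a a g t
    exact (h K).z1 ⟨a, h3⟩ ⟨g, h4⟩ ⟨t, h5⟩
  · obtain ⟨K, -, -, h3, h4, h5⟩ := five b b b g t
    exact (h K).z2 ⟨b, h3⟩ ⟨g, h4⟩ ⟨t, h5⟩
  · obtain ⟨K, -, -, -, h4, h5⟩ := five c c c c x
    exact (h K).n1 ⟨c, h4⟩ ⟨x, h5⟩
  · obtain ⟨K, -, -, -, h4, h5⟩ := five c c c c y
    exact (h K).n0 ⟨c, h4⟩ ⟨y, h5⟩
  · obtain ⟨K, -, -, h3, h4, h5⟩ := five c c c x y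
    exact (h K).hI ⟨c, h3⟩ ⟨x, h4⟩ ⟨y, h5⟩

theorem Hyp.zero_of_homog {k V : Type*} [CommRing k] [AddCommGroup V] [Module k V] [Module k Z]
    (e : k) (he : e * 2 = 1) (S : AddSubgroup V) {Δ : S → S → S → Z} (h : Hyp Δ) (n : ℕ)
    (hom : ∀ c x y, Δ (2 • c) (2 • x) (2 • y) = (2 : k) ^ n • Δ c x y) (c x y : S) :
    Δ c x y = 0 := by
  classical
  have homK : ∀ (K : ℕ) c x y, Δ (2 ^ K • c) (2 ^ K • x) (2 ^ K • y) =
      ((2 : k) ^ n) ^ K • Δ c x y := by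
    intro K c x y
    induction K with
    | zero => simp
    | succ K ih => rw [pow_succ' 2 K, mul_smul, mul_smul, mul_smul, hom, ih, pow_succ', mul_smul]
  have hne : ∀ K : ℕ, (e ^ n) ^ K * ((2 : k) ^ n) ^ K = 1 := fun K => by
    rw [← mul_pow, ← mul_pow, he, one_pow, one_pow]
  let B : AddSubgroup V :=
    { carrier := {v | ∃ K : ℕ, 2 ^ K • v ∈ S}
      zero_mem' := ⟨0, by simp⟩
      add_mem' := by
        rintro a b ⟨K, ha⟩ ⟨M, hb⟩
        refine ⟨K + M, ?_⟩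
        rw [smul_add]
        refine add_mem ?_ ?_
        · rw [pow_add, mul_comm, mul_smul]; exact S.nsmul_mem ha _
        · rw [pow_add, mul_smul]; exact S.nsmul_mem hb _
      neg_mem' := by
        rintro a ⟨K, ha⟩
        exact ⟨K, by rw [smul_neg]; exact neg_mem ha⟩ }
  let T : ℕ → AddSubgroup B := fun K =>
    { carrier := {v | 2 ^ K • (v : V) ∈ S}
      zero_mem' := by simp
      add_mem' := by
        intro a b ha hb
        change 2 ^ K • ((a : V) + b) ∈ S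
        rw [smul_add]; exact add_mem ha hb
      neg_mem' := by
        intro a ha
        change 2 ^ K • (-(a : V)) ∈ S
        rw [smul_neg]; exact neg_mem ha }
  have hT : Monotone T := by
    intro K M hKM v hv
    obtain ⟨d, rfl⟩ := Nat.exists_eq_add_of_le hKM
    change 2 ^ (K + d) • (v : V) ∈ S
    rw [pow_add, mul_comm, mul_smul]
    exact S.nsmul_mem hv _
  have hall : ∀ b : B, ∃ K, b ∈ T K := fun b => b.2
  let m : ∀ K, T K →+ S := fun K =>
    { toFun := fun v => ⟨2 ^ K • ((v : B) : V), v.2⟩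
      map_zero' := Subtype.ext (by simp)
      map_add' := fun a b => Subtype.ext (smul_add _ _ _) }
  have three : ∀ c x y : B, ∃ K, c ∈ T K ∧ x ∈ T K ∧ y ∈ T K := by
    intro c x y
    obtain ⟨k1, h1⟩ := hall c
    obtain ⟨k2, h2⟩ := hall x
    obtain ⟨k3, h3⟩ := hall y
    exact ⟨k1 + k2 + k3, hT (by omega) h1, hT (by omega) h2, hT (by omega) h3⟩
  choose κ κ1 κ2 κ3 using three
  let Δ' : B → B → B → Z := fun c x y =>
    (e ^ n) ^ κ c x y • Δ (m _ ⟨c, κ1 c x y⟩) (m _ ⟨x, κ2 c x y⟩) (m _ ⟨y, κ3 c x y⟩)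
  have key : ∀ K (c x y : T K), Δ' c x y = (e ^ n) ^ K • Δ (m K c) (m K x) (m K y) := by
    intro K c x y
    have sw : ∀ (M : ℕ) (v : T K) (hv : (v : B) ∈ T M), 2 ^ K • m M ⟨v, hv⟩ = 2 ^ M • m K v :=
      fun M v hv => Subtype.ext (smul_comm _ _ _)
    have p := homK K (m _ ⟨c, κ1 c x y⟩) (m _ ⟨x, κ2 c x y⟩) (m _ ⟨y, κ3 c x y⟩)
    rw [sw, sw, sw, homK] at p
    have q := congrArg (fun z => ((e ^ n) ^ κ c x y * (e ^ n) ^ K) • z) p
    simp only [smul_smul] at q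
    rw [mul_assoc ((e ^ n) ^ κ c x y) _ (((2 : k) ^ n) ^ K), hne, mul_one, mul_right_comm, hne,
      one_mul] at q
    exact q.symm
  have hΔ' : Hyp Δ' := by
    refine Hyp.of_local T hT hall fun K => ?_
    have := h.comap (m K) (DistribSMul.toAddMonoidHom Z ((e ^ n) ^ K))
    convert this using 4
    exact key _ _ _ _
  have hz := hΔ'.zero (fun a => by
      obtain ⟨K, hK⟩ := a.2
      have e2 : (a : V) = e • (a : V) + e • (a : V) := by
        rw [← add_smul, ← mul_two, he, one_smul]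
      refine ⟨⟨e • (a : V), K + 1, ?_⟩, Subtype.ext e2⟩
      rw [pow_succ, mul_smul, two_smul, ← e2]
      exact hK)
    (fun z hz => by rw [← one_smul k z, ← he, mul_smul, two_smul, hz, smul_zero])
  let ι : S → T 0 := fun s => ⟨⟨s, 0, by simp⟩, by change 2 ^ 0 • (s : V) ∈ S; simp⟩
  have hι : ∀ s, m 0 (ι s) = s := fun s => Subtype.ext (by change 2 ^ 0 • (s : V) = s; simp)
  have := key 0 (ι c) (ι x) (ι y)
  rw [hz, hι, hι, hι, pow_zero, one_smul] at this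
  exact this.symm

end Pool.Agent.Lib.MP_ca1f03_al.Nil
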