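import Pool.Agent.Lib.MP_ca1f03_al.Nil.Layer
import Pool.Agent.Lib.MP_ca1f03_al.Nil.Loc

namespace Pool.Agent.Lib.MP_ca1f03_al.Nil

open Lp

/-- A loop with coordinates in a filtered module. -/
structure Fil (W : Type*) [Lp W] (k V : Type*) [CommRing k] [AddCommGroup V] [Module k V] where
  φ : W → V
  F : ℕ → Submodule k V
  anti : ∀ {n a}, a ∈ F (n + 1) → a ∈ F n
  one : ∀ x y, φ x - φ y ∈ F 1
  lin : ∀ {n x x' y y'}, φ x - φ x' ∈ F n → φ y - φ y' ∈ F n →
    φ (x * y) - φ (x' * y') - ((φ x - φ x') + (φ y - φ y')) ∈ F (n + 1)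

namespace Fil
variable {W : Type*} [Lp W] {k V : Type*} [CommRing k] [AddCommGroup V] [Module k V]
  (D : Fil W k V)

theorem rel_ld {n : ℕ} {x x' y y' : W} (hx : D.φ x - D.φ x' ∈ D.F n)
    (hy : D.φ y - D.φ y' ∈ D.F n) : D.φ (ld x y) - D.φ (ld x' y') ∈ D.F n := by
  induction n with
  | zero => exact D.anti (D.one _ _)
  | succ n ih =>
    have h1 := D.lin (D.anti hx) (ih (D.anti hx) (D.anti hy))
    rw [mul_ld, mul_ld] at h1
    have := sub_mem (sub_mem hy hx) h1
    convert this using 1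
    abel

theorem rel_rd {n : ℕ} {x x' y y' : W} (hx : D.φ x - D.φ x' ∈ D.F n)
    (hy : D.φ y - D.φ y' ∈ D.F n) : D.φ (rd x y) - D.φ (rd x' y') ∈ D.F n := by
  induction n with
  | zero => exact D.anti (D.one _ _)
  | succ n ih =>
    have h1 := D.lin (ih (D.anti hx) (D.anti hy)) (D.anti hy)
    rw [rd_mul, rd_mul] at h1
    have := sub_mem (sub_mem hx hy) h1
    convert this using 1
    abel

theorem ab_mul (x y : W) : (D.F 2).mkQ (D.φ (x * y) - D.φ 1) =
    (D.F 2).mkQ (D.φ x - D.φ 1) + (D.F 2).mkQ (D.φ y - D.φ 1) := by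
  rw [← map_add, Submodule.mkQ_apply, Submodule.mkQ_apply, Submodule.Quotient.eq]
  have := D.lin (D.one x 1) (D.one y 1)
  rwa [mul_one] at this

/-- The image of the loop in the first graded piece. -/
def abel1 : AddSubgroup (V ⧸ D.F 2) where
  carrier := Set.range fun x : W => (D.F 2).mkQ (D.φ x - D.φ 1)
  add_mem' := by
    rintro _ _ ⟨x, rfl⟩ ⟨y, rfl⟩
    exact ⟨x * y, D.ab_mul x y⟩
  zero_mem' := ⟨1, by simp⟩
  neg_mem' := by
    rintro _ ⟨x, rfl⟩
    refine ⟨ld x 1, eq_neg_of_add_eq_zero_right ?_⟩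
    rw [← D.ab_mul, mul_ld, sub_self, map_zero]

/-- The layer of degree `n`. -/
def layer (n : ℕ) : Layer W D.abel1 (V ⧸ D.F (n + 1)) where
  r x y := D.φ x - D.φ y ∈ D.F n
  ψ x := (D.F (n + 1)).mkQ (D.φ x)
  π x := ⟨(D.F 2).mkQ (D.φ x - D.φ 1), x, rfl⟩
  r_refl x := by rw [sub_self]; exact zero_mem _
  r_symm h := by rw [← neg_sub]; exact neg_mem h
  r_trans h h' := by
    have := add_mem h h'
    rwa [sub_add_sub_cancel] at this
  r_mul hx hy := by
    have := add_mem (D.anti (D.lin hx hy)) (add_mem hx hy)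
    rwa [sub_add_cancel] at this
  r_ld := D.rel_ld
  r_rd := D.rel_rd
  ψ_mul hx hy := by
    simp only [← map_sub, ← map_add]
    rw [Submodule.mkQ_apply, Submodule.mkQ_apply, Submodule.Quotient.eq]
    exact D.lin hx hy
  π_mul x y := Subtype.ext (D.ab_mul x y)
  π_surj := by
    rintro ⟨_, x, rfl⟩
    exact ⟨x, rfl⟩

/-- The Bol defect in coordinates. -/
def bol (c x y : W) : V := D.φ (rd c y * ld x c) - D.φ (jj c (x * y))

theorem bol_all (e : k) (he : e * 2 = 1) (hS : SUF W)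
    (hsub : ∀ n, (∀ c x y, D.bol c x y ∈ D.F (n + 2)) → ∀ (κ : k) (c x y c' x' y' : W),
      (D.φ c - D.φ 1) - κ • (D.φ c' - D.φ 1) ∈ D.F 2 →
      (D.φ x - D.φ 1) - κ • (D.φ x' - D.φ 1) ∈ D.F 2 →
      (D.φ y - D.φ 1) - κ • (D.φ y' - D.φ 1) ∈ D.F 2 →
      D.bol c x y - κ ^ (n + 2) • D.bol c' x' y' ∈ D.F (n + 3)) (n : ℕ) (c x y : W) :
    D.bol c x y ∈ D.F (n + 2) := by
  induction n generalizing c x y with
  | zero =>
    have : (D.layer 2).π (rd c y * ld x c) = (D.layer 2).π (jj c (x * y)) := by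
      simp only [jj, Layer.π_mul, Layer.π_ld, Layer.π_rd]
      abel
    have h2 := (Submodule.Quotient.eq _).1 (congrArg Subtype.val this)
    rwa [sub_sub_sub_cancel_right] at h2
  | succ n h =>
    have hs2 : ∀ (m : ℕ) (c x y c' x' y' : W),
        (D.layer (n + 2)).π c = m • (D.layer (n + 2)).π c' →
        (D.layer (n + 2)).π x = m • (D.layer (n + 2)).π x' →
        (D.layer (n + 2)).π y = m • (D.layer (n + 2)).π y' →
        (D.layer (n + 2)).Φ c x y = (m : k) ^ (n + 2) • (D.layer (n + 2)).Φ c' x' y' := by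
      intro m c x y c' x' y' hc hx hy
      have tr : ∀ {a b : W}, (D.layer (n + 2)).π a = m • (D.layer (n + 2)).π b →
          (D.φ a - D.φ 1) - (m : k) • (D.φ b - D.φ 1) ∈ D.F 2 := by
        intro a b hab
        rw [← Submodule.Quotient.eq, Submodule.Quotient.mk_smul, Nat.cast_smul_eq_nsmul]
        exact congrArg Subtype.val hab
      have := hsub n h m c x y c' x' y' (tr hc) (tr hx) (tr hy)
      rw [← Submodule.Quotient.eq, Submodule.Quotient.mk_smul, bol, bol,
        Submodule.Quotient.mk_sub, Submodule.Quotient.mk_sub] at this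
      exact this
    choose s hs using (D.layer (n + 2)).π_surj
    have hΔ : ∀ c x y, (D.layer (n + 2)).Φ c x y = (D.layer (n + 2)).Φ
        (s ((D.layer (n + 2)).π c)) (s ((D.layer (n + 2)).π x)) (s ((D.layer (n + 2)).π y)) := by
      intro c x y
      have := hs2 1 c x y _ _ _ (by rw [hs, one_smul]) (by rw [hs, one_smul])
        (by rw [hs, one_smul])
      rwa [Nat.cast_one, one_pow, one_smul] at this
    have hyp := Layer.step (L := D.layer (n + 2)) hS h (fun a b d => (D.layer (n + 2)).Φ (s a) (s b) (s d)) hΔ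
    have := hyp.zero_of_homog e he _ (n + 2) (fun a b d => by
      have := hs2 2 (s (2 • a)) (s (2 • b)) (s (2 • d)) (s a) (s b) (s d) (by rw [hs, hs])
        (by rw [hs, hs]) (by rw [hs, hs])
      rwa [Nat.cast_ofNat] at this) ((D.layer (n + 2)).π c) ((D.layer (n + 2)).π x)
      ((D.layer (n + 2)).π y)
    rw [← hΔ] at this
    exact (Submodule.Quotient.eq _).1 (sub_eq_zero.1 this)

end Fil

end Pool.Agent.Lib.MP_ca1f03_al.Nil
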