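import Mathlib

namespace Pool.Agent.Lib.MP_ca1f03_al.Nil

section Artin
variable {A Z : Type*} [AddCommGroup A] [AddCommGroup Z]

/-- Difference operator in the direction `(a, b)`. -/
def Df (a b : A) (f : A → A → Z) : A → A → Z := fun x y => f (x + a) (y + b) - f x y

def Rel (L : List (ℤ × ℤ × (A → A → Z))) : Prop :=
  ∀ g x y : A, (L.map fun t => t.2.2 (x + t.1 • g) (y + t.2.1 • g)).sum = 0

theorem sum_map_sub' {ι : Type*} (L : List ι) (F G : ι → Z) :
    (L.map fun t => F t - G t).sum = (L.map F).sum - (L.map G).sum := by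
  induction L with
  | nil => simp
  | cons t L ih => simp only [List.map_cons, List.sum_cons, ih]; abel

theorem Rel.step {m n : ℤ} {f : A → A → Z} {L : List (ℤ × ℤ × (A → A → Z))}
    (h : Rel ((m, n, f) :: L)) (k : A) :
    Rel (L.map fun t => (t.1, t.2.1, Df ((t.1 - m) • k) ((t.2.1 - n) • k) t.2.2)) := by
  intro g x y
  have h1 := h (g + k) (x - m • k) (y - n • k)
  have h2 := h g x y
  simp only [List.map_cons, List.sum_cons] at h1 h2
  have e1 : x - m • k + m • (g + k) = x + m • g := by module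
  have e2 : y - n • k + n • (g + k) = y + n • g := by module
  rw [e1, e2] at h1
  rw [List.map_map]
  have e3 : ((fun t : ℤ × ℤ × (A → A → Z) => t.2.2 (x + t.1 • g) (y + t.2.1 • g)) ∘
      fun t : ℤ × ℤ × (A → A → Z) =>
        (t.1, t.2.1, Df ((t.1 - m) • k) ((t.2.1 - n) • k) t.2.2)) =
      fun t => t.2.2 (x - m • k + t.1 • (g + k)) (y - n • k + t.2.1 • (g + k)) -
        t.2.2 (x + t.1 • g) (y + t.2.1 • g) := by
    funext t
    have a1 : x + t.1 • g + (t.1 - m) • k = x - m • k + t.1 • (g + k) := by module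
    have a2 : y + t.2.1 • g + (t.2.1 - n) • k = y - n • k + t.2.1 • (g + k) := by module
    simp only [Function.comp, Df, a1, a2]
  rw [e3, sum_map_sub', eq_neg_of_add_eq_zero_right h1, eq_neg_of_add_eq_zero_right h2, sub_self]

theorem Rel.last {m n : ℤ} {f : A → A → Z} (h : Rel [(m, n, f)]) (x y : A) : f x y = 0 := by
  simpa using h 0 x y

/-- Mixed second difference. -/
def Hd (f : A → A → Z) (g x y : A) : Z :=
  f (x + g) (y + g) - f (x + g) y - f x (y + g) + f x y

theorem Hd_eq (f : A → A → Z) (g : A) : Df g 0 (Df 0 g f) = Hd f g := by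
  funext x y
  simp only [Df, Hd, add_zero]
  abel

theorem Hd_eq' (f : A → A → Z) (g : A) : Df 0 g (Df g 0 f) = Hd f g := by
  funext x y
  simp only [Df, Hd, add_zero]
  abel

theorem artin (h2 : ∀ a : A, ∃ b, a = b + b) (f : A → A → Z)
    (hK : ∀ g x y, Hd f g (x + g) (y - g) = Hd f g x y) (g h k l x y : A) :
    Df l l (Df k k (Df h (-h) (Hd f g))) x y = 0 := by
  obtain ⟨s, hs⟩ := h2 g
  have base : ∀ G x y, f (x + G + G) y - f (x + G + G) (y - G) + f (x + G) (y - G) -
      f (x + G) (y + G) + f x (y + G) - f x y = 0 := by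
    intro G x y
    have := hK G x y
    simp only [Hd, sub_add_cancel] at this
    rw [← sub_eq_zero.2 this]
    abel
  have r1 : Rel [((2 : ℤ), (0 : ℤ), -f), (0, 1, -f), (1, -1, -f), (1, 1, f), (2, -1, f),
      (0, 0, f)] := by
    intro G x y
    have := base G x y
    simp only [List.map_cons, List.sum_cons, List.map_nil, List.sum_nil, Pi.neg_apply, zero_smul,
      one_smul, neg_smul, add_zero, two_smul, ← add_assoc, ← sub_eq_add_neg]
    rw [← neg_eq_zero.2 this]
    abel
  have r2 : Rel [((1 : ℤ), (1 : ℤ), -f), (2, -1, -f), (0, 0, -f), (2, 0, f), (0, 1, f),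
      (1, -1, f)] := by
    intro G x y
    have := base G x y
    simp only [List.map_cons, List.sum_cons, List.map_nil, List.sum_nil, Pi.neg_apply, zero_smul,
      one_smul, neg_smul, add_zero, two_smul, ← add_assoc, ← sub_eq_add_neg]
    rw [← this]
    abel
  have s1 := ((((r1.step (-s)).step (-g)).step (-h)).step (-k)).step (-l)
  have s2 := ((((r2.step (-s)).step (-g)).step h).step (-k)).step (-l)
  simp only [List.map_cons, List.map_nil] at s1 s2
  have t1 := s1.last
  have t2 := s2.last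
  have a1 : ((0 : ℤ) - 2) • (-s) = g := by rw [hs]; module
  have a2 : ((-1 : ℤ) - 1) • (-s) = g := by rw [hs]; module
  have b0 : ∀ w : A, ((0 : ℤ) - 0) • w = 0 := fun w => by module
  have b1 : ∀ w : A, ((0 : ℤ) - 1) • (-w) = w := fun w => by module
  have b2 : ∀ w : A, ((0 : ℤ) - -1) • (-w) = -w := fun w => by module
  have b3 : ∀ w : A, ((1 : ℤ) - 1) • w = 0 := fun w => by module
  have b4 : ∀ w : A, ((1 : ℤ) - 2) • (-w) = w := fun w => by module
  have b5 : ∀ w : A, ((-1 : ℤ) - -1) • w = 0 := fun w => by module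
  have b6 : ∀ w : A, ((1 : ℤ) - 0) • w = w := fun w => by module
  have b7 : ∀ w : A, ((-1 : ℤ) - 0) • w = -w := fun w => by module
  have b8 : ((0 : ℤ) - 2) • (-l) = l + l := by module
  have b9 : ((-1 : ℤ) - 1) • (-l) = l + l := by module
  simp only [a1, b8, b0, b1, b2, Hd_eq'] at t1
  simp only [a2, b9, b3, b4, b5, b6, b7, neg_neg, Hd_eq] at t2
  generalize Df k k (Df h (-h) (Hd f g)) = w at t1 t2 ⊢
  have u1 := t1 x y
  have u2 := t2 (x + (l + l)) (y + -l)
  simp only [Df] at u1 u2 ⊢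
  have c1 : x + (l + l) + -l = x + l := by abel
  have c2 : y + -l + (l + l) = y + l := by abel
  rw [c1, c2] at u2
  rw [sub_eq_zero.1 u2, u1]

end Artin

section Core
variable {A Z : Type*} [AddCommGroup A] [AddCommGroup Z]

theorem core (e η : A → A → A → Z)
    (hR : ∀ d b a t, e (d - a) (d - b) (d + d - t) = e b a t + η d (t - a) a - η d b (t - b))
    (z1 : ∀ a t, e 0 a t = 0) (z2 : ∀ b t, e b 0 t = 0) :
    (∀ x y, e x y 0 = e y x 0) ∧ (∀ x y, e x (-y) 0 = -e x y 0) ∧ (∀ x, e x x 0 = 0) ∧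
    (∀ b a τ, e b a (-τ - τ) = e (b + τ) (a + τ) 0 - e τ (a + τ) 0 - e (b + τ) τ 0) ∧
    (∀ d b y, η d b y = η d (b + y - d) d + e b d (b + y)) := by
  have h1 : ∀ d a t, η d (t - a) a = η d d (t - d) - e d a t := by
    intro d a t
    have := hR d d a t
    rw [sub_self, z2] at this
    rw [eq_sub_iff_add_eq, ← sub_eq_zero, this]
    abel
  have h2 : ∀ d b t, η d b (t - b) = η d (t - d) d + e b d t := by
    intro d b t
    have := hR d b d t
    rw [sub_self, z1] at this
    rw [← sub_eq_zero, ← neg_eq_zero, this]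
    abel
  have hM : ∀ d b a t, e (d - a) (d - b) (d + d - t) = e b a t - e d a t - e b d t + e d d t := by
    intro d b a t
    rw [hR, h1 d a t, h2 d b t, h2 d d t]
    abel
  have hJ : ∀ b a t, e (-a) (-b) (-t) = e b a t := by
    intro b a t
    simpa [z1, z2] using hM 0 b a t
  have hC : ∀ x d t, e x d t + e d (t - x) t = e d d t := by
    intro x d t
    have p := h1 d (t - x) t
    rw [sub_sub_cancel, h2 d x t, h2 d d t] at p
    rw [← sub_eq_zero, ← sub_eq_zero.2 p]
    abel
  have hd : ∀ x, e x x 0 = 0 := by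
    intro x
    simpa [z1, z2] using (hC 0 x 0).symm
  have hC0 : ∀ x d, e d (-x) 0 = -e x d 0 := by
    intro x d
    have := hC x d 0
    rw [zero_sub, hd] at this
    exact eq_neg_of_add_eq_zero_right this
  have ho : ∀ x y, e x (-y) 0 = -e x y 0 := by
    intro x y
    have := hJ y (-x) 0
    rw [neg_neg, neg_zero] at this
    rw [this, hC0]
  refine ⟨fun x y => ?_, ho, hd, fun b a τ => ?_, fun d b y => ?_⟩
  · have := hC0 x y
    rw [ho] at this
    exact (neg_injective this).symm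
  · have := hM τ (b + τ) (a + τ) 0
    have e1 : τ - (a + τ) = -a := by abel
    have e2 : τ - (b + τ) = -b := by abel
    have e3 : τ + τ - 0 = -(-τ - τ) := by abel
    rw [e1, e2, e3, hJ, hd, add_zero] at this
    exact this
  · simpa using h2 d b (b + y)

theorem additive_of_odd (hZ : ∀ z : Z, z + z = 0 → z = 0) (φ : A → Z) (ho : ∀ x, φ (-x) = -φ x)
    (h3 : ∀ d k l, φ (d + k + l) - φ (k + l) - φ (d + k) + φ k - φ (d + l) + φ l + φ d = 0)
    (a c : A) : φ (a + c) = φ a + φ c := by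
  have h0 : φ 0 = 0 := hZ _ (by simpa [eq_neg_iff_add_eq_zero] using ho 0)
  have p1 := h3 a c (-c)
  have p2 := h3 (-c) a (-a)
  have e1 : φ (-c + -a) = -φ (a + c) := by rw [← ho]; congr 1; abel
  have e2 : φ (-c + a) = φ (a + -c) := by congr 1; abel
  simp only [add_neg_cancel_right, add_neg_cancel, h0, ho, e1, e2] at p1 p2
  rw [← sub_eq_zero]
  apply hZ
  rw [← neg_eq_zero, ← sub_eq_zero.2 (p1.trans p2.symm)]
  abel

theorem alg (h2 : ∀ a : A, ∃ b, a = b + b) (hZ : ∀ z : Z, z + z = 0 → z = 0)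
    (E : A → A → A → A → Z) (Δ : A → A → A → Z)
    (hR : ∀ c b a g t, E (c - a) (c - b) (-g) (c + c - t) =
      E b a g t + Hd (Δ c) g (t - a) a - Hd (Δ c) g b (t - b))
    (hS : ∀ b a g t, E b a g t = E (b + g) (a + g) (-g) (t + g + g))
    (z1 : ∀ a g t, E 0 a g t = 0) (z2 : ∀ b g t, E b 0 g t = 0)
    (n1 : ∀ c x, Δ c x (c - x) = 0) (n0 : ∀ c y, Δ c 0 y = 0)
    (hI : ∀ c x y, Δ c (c - y) (c - x) - Δ c x y = Δ c (c - (x + y)) c) (c x y : A) :
    Δ c x y = 0 := by
  have C := fun g => core (fun b a t => E b a g t) (fun d x y => Hd (Δ (d + g)) g x y)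
    (fun d b a t => by
      have := hR (d + g) b a g t
      rw [← this, hS]
      congr 1 <;> abel) (fun a t => z1 a g t) (fun b t => z2 b g t)
  have sy := fun g => (C g).1
  have od := fun g => (C g).2.1
  have dg := fun g => (C g).2.2.1
  have hN := fun g => (C g).2.2.2.1
  have hη := fun g => (C g).2.2.2.2
  have hS' : ∀ g β α τ, E β α g 0 - E τ α g 0 - E β τ g 0 =
      E β α (-g) 0 - E (τ - g) α (-g) 0 - E β (τ - g) (-g) 0 := by
    intro g β α τ
    have p := hN g (β - τ) (α - τ) τ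
    have q := hN (-g) (β - τ + g) (α - τ + g) (τ - g)
    have e1 : -(τ - g) - (τ - g) = -τ - τ + g + g := by abel
    have e2 : ∀ w, w - τ + g + (τ - g) = w := fun w => by abel
    rw [e1, e2, e2, ← hS, p, sub_add_cancel, sub_add_cancel] at q
    exact q
  have i1 : ∀ g β τ, E β (τ - g) (-g) 0 = E β τ g 0 := by
    intro g β τ
    simpa [z2] using (hS' g β 0 τ).symm
  have i2 : ∀ g β α, E β α (-g) 0 = E β α g 0 := by
    intro g β α
    have := hS' g β α 0
    rw [sy (-g) (0 - g) α, i1, i1, sy g α 0] at this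
    exact (sub_left_injective (sub_left_injective this)).symm
  have i3 : ∀ g β τ, E (β + g) τ g 0 = E β τ g 0 := by
    intro g β τ
    rw [sy g (β + g) τ, ← i1, add_sub_cancel_right, i2, sy]
  have form : ∀ g d β τ, Hd (Δ (d + g)) g (β - τ) (-β - τ) =
      Hd (Δ (d + g)) g (-τ - τ - d) d - E τ (d + τ) g 0 + (E β (d + τ) g 0 - E β τ g 0) := by
    intro g d β τ
    have e1 : β - τ + (-β - τ) = -τ - τ := by abel
    rw [hη g d (β - τ) (-β - τ), e1, hN, sub_add_cancel]
    abel
  have coord : ∀ x y : A, ∃ β τ, x = β - τ ∧ y = -β - τ := by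
    intro x y
    obtain ⟨s, hs⟩ := h2 (x + y)
    refine ⟨x - s, -s, by abel, ?_⟩
    rw [eq_sub_of_add_eq' hs]
    abel
  have hK : ∀ c g x y, Hd (Δ c) g (x + g) (y - g) = Hd (Δ c) g x y := by
    intro c g x y
    obtain ⟨β, τ, rfl, rfl⟩ := coord x y
    obtain ⟨d, rfl⟩ : ∃ d, c = d + g := ⟨c - g, by abel⟩
    have e1 : β - τ + g = β + g - τ := by abel
    have e2 : -β - τ - g = -(β + g) - τ := by abel
    rw [e1, e2, form, form, i3, i3]
  have add2 : ∀ g h a b, E h (a + b) g 0 = E h a g 0 + E h b g 0 := by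
    intro g h
    refine additive_of_odd hZ (fun τ => E h τ g 0) (od g h) (fun d k l => ?_)
    have p := artin h2 (Δ (d + g)) (hK _) g h (-k) (-l) 0 0
    have W : ∀ τ, Df h (-h) (Hd (Δ (d + g)) g) (-τ) (-τ) = E h (d + τ) g 0 - E h τ g 0 := by
      intro τ
      have q1 := form g d h τ
      have q0 := form g d 0 τ
      have e1 : -τ + h = h - τ := by abel
      have e2 : -τ + -h = -h - τ := by abel
      rw [neg_zero, zero_sub, z1, z1] at q0
      simp only [Df]
      rw [e1, e2, q1, q0]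
      abel
    have W0 := W 0
    have e3 : -l + -k = -(k + l) := by abel
    rw [neg_zero] at W0
    generalize Df h (-h) (Hd (Δ (d + g)) g) = w at p W W0
    simp only [Df, zero_add] at p
    rw [e3, W, W, W, W0, z2, add_zero, ← add_assoc] at p
    rw [← p]
    abel
  have F0 : ∀ g a b, E a b g 0 = 0 := by
    intro g a b
    have p := dg g (a + b)
    rw [add2, sy g (a + b) a, sy g (a + b) b, add2, add2, dg, dg, sy g b a, zero_add,
      add_zero] at p
    exact hZ _ p
  have hsum : ∀ g x y, Hd (Δ c) g x y = Hd (Δ c) g (x + y - (c - g)) (c - g) := by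
    intro g x y
    obtain ⟨β, τ, rfl, rfl⟩ := coord x y
    have p := form g (c - g) β τ
    have e1 : β - τ + (-β - τ) = -τ - τ := by abel
    rw [sub_add_cancel, F0, F0, F0] at p
    rw [p, e1]
    abel
  have hs2 : ∀ x y, Δ c x y + Δ c (c - y) (c - x) = Hd (Δ c) (x + y - c) (c - y) (c - x) := by
    intro x y
    have e1 : c - y + (x + y - c) = x := by abel
    have e2 : c - x + (x + y - c) = y := by abel
    have e3 := n1 c (c - y)
    rw [sub_sub_cancel] at e3
    simp only [Hd]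
    rw [e1, e2, n1, e3]
    abel
  have p1 := hs2 x y
  have p2 := hs2 0 (x + y)
  have e4 : c - (x + y) + (c - 0) = c - y + (c - x) := by abel
  rw [hsum, zero_add, e4, ← hsum, ← p1, n0, zero_add, sub_zero, ← hI] at p2
  apply hZ
  rw [← neg_eq_zero, ← sub_eq_zero.2 p2]
  abel

/-- The leading flexibility defect, expressed by the leading Bol defect. -/
def EE (Δ : A → A → A → Z) (b a g t : A) : Z := Hd (Δ b) g b (t - b) - Hd (Δ b) g (t - a) a

/-- The functional equations of the leading Bol defect. -/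
structure Hyp (Δ : A → A → A → Z) : Prop where
  hR : ∀ c b a g t, EE Δ (c - a) (c - b) (-g) (c + c - t) =
      EE Δ b a g t + Hd (Δ c) g (t - a) a - Hd (Δ c) g b (t - b)
  hS : ∀ b a g t, EE Δ b a g t = EE Δ (b + g) (a + g) (-g) (t + g + g)
  z1 : ∀ a g t, EE Δ 0 a g t = 0
  z2 : ∀ b g t, EE Δ b 0 g t = 0
  n1 : ∀ c x, Δ c x (c - x) = 0
  n0 : ∀ c y, Δ c 0 y = 0
  hI : ∀ c x y, Δ c (c - y) (c - x) - Δ c x y = Δ c (c - (x + y)) c

theorem Hyp.zero (h2 : ∀ a : A, ∃ b, a = b + b) (hZ : ∀ z : Z, z + z = 0 → z = 0)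
    {Δ : A → A → A → Z} (h : Hyp Δ) (c x y : A) : Δ c x y = 0 :=
  alg h2 hZ (EE Δ) Δ h.hR h.hS h.z1 h.z2 h.n1 h.n0 h.hI c x y

end Core

end Pool.Agent.Lib.MP_ca1f03_al.Nil
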