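import Mathlib

namespace Pool.Agent.Lib.MP_ca1f03_al.Nil

open Filter Asymptotics Topology

variable {E F : Type*} [NormedAddCommGroup E] [NormedSpace ℝ E] [NormedAddCommGroup F]
  [NormedSpace ℝ F]

/-- Functions of a real variable vanishing to order `n` at the origin. -/
def Ord (E : Type*) [NormedAddCommGroup E] [NormedSpace ℝ E] (n : ℕ) : Submodule ℝ (ℝ → E) where
  carrier := {f | f =O[𝓝 0] fun t : ℝ => ‖t‖ ^ n}
  zero_mem' := isBigO_zero _ _
  add_mem' := fun ha hb => IsBigO.add ha hb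
  smul_mem' := fun c _ h => IsBigO.const_smul_left h c

theorem mem_Ord {n : ℕ} {f : ℝ → E} : f ∈ Ord E n ↔ f =O[𝓝 0] fun t : ℝ => ‖t‖ ^ n := Iff.rfl

theorem pow_O {m n : ℕ} (h : n ≤ m) : (fun t : ℝ => ‖t‖ ^ m) =O[𝓝 0] fun t : ℝ => ‖t‖ ^ n := by
  refine IsBigO.of_bound 1 ?_
  filter_upwards [Metric.closedBall_mem_nhds (0 : ℝ) one_pos] with t ht
  rw [one_mul, norm_pow, norm_pow, norm_norm]
  exact pow_le_pow_of_le_one (norm_nonneg _) (by simpa using ht) h

theorem Ord_anti {m n : ℕ} (h : n ≤ m) {f : ℝ → E} (hf : f ∈ Ord E m) : f ∈ Ord E n :=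
  IsBigO.trans hf (pow_O h)

theorem Ord_congr {n : ℕ} {f g : ℝ → E} (hf : f ∈ Ord E n) (h : f =ᶠ[𝓝 0] g) : g ∈ Ord E n :=
  IsBigO.congr' hf h EventuallyEq.rfl

theorem Ord_tendsto {f : ℝ → E} (hf : f ∈ Ord E 1) : Tendsto f (𝓝 0) (𝓝 0) := by
  refine IsBigO.trans_tendsto hf ?_
  have : Continuous fun t : ℝ => ‖t‖ ^ 1 := by fun_prop
  simpa using this.tendsto 0

theorem Ord_of_analytic {f : ℝ → E} (hf : AnalyticAt ℝ f 0) (h0 : f 0 = 0) : f ∈ Ord E 1 := by
  have := hf.differentiableAt.isBigO_sub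
  simp only [h0, sub_zero] at this
  exact this.norm_right.congr_right fun t => (pow_one _).symm

theorem Ord_prod {n : ℕ} {f : ℝ → E} {g : ℝ → F} (hf : f ∈ Ord E n) (hg : g ∈ Ord F n) :
    (fun t => (f t, g t)) ∈ Ord (E × F) n := IsBigO.prod_left hf hg

theorem eq_zero_of_Ord {m : ℕ} {v : E} (h : (fun t : ℝ => t ^ m • v) ∈ Ord E (m + 1)) : v = 0 := by
  obtain ⟨C, hC⟩ := isBigO_iff.1 h
  have h1 : ∀ᶠ t : ℝ in 𝓝[>] 0, ‖v‖ ≤ C * t := by
    filter_upwards [mem_nhdsWithin_of_mem_nhds hC, self_mem_nhdsWithin] with t ht hpos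
    have hp : (0 : ℝ) < t := hpos
    rw [norm_smul, norm_pow, norm_pow, norm_norm, Real.norm_of_nonneg hp.le, pow_succ] at ht
    have : t ^ m * ‖v‖ ≤ t ^ m * (C * t) := by linarith
    exact le_of_mul_le_mul_left this (pow_pos hp m)
  have h2 : Tendsto (fun t : ℝ => C * t) (𝓝[>] 0) (𝓝 0) := by
    have : Continuous fun t : ℝ => C * t := by fun_prop
    simpa using (this.tendsto 0).mono_left nhdsWithin_le_nhds
  exact norm_le_zero_iff.1 (ge_of_tendsto h2 h1)

theorem comp_Ord {G : F → E} {n : ℕ} (hG : G =O[𝓝 0] fun y => ‖y‖ ^ n) {z : ℝ → F}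
    (hz : z ∈ Ord F 1) : (fun t => G (z t)) ∈ Ord E n := by
  refine (hG.comp_tendsto (Ord_tendsto hz)).trans ?_
  exact ((IsBigO.norm_left hz).pow n).congr_right fun t => by rw [pow_one]

variable {G : F → E} {p : FormalMultilinearSeries ℝ F E}

theorem lead_O (hp : HasFPowerSeriesAt G p 0) {m : ℕ}
    (h : ∀ i < m, ∀ w, p i (fun _ => w) = 0) :
    (fun y => G y - p m fun _ => y) =O[𝓝 0] fun y => ‖y‖ ^ (m + 1) := by
  refine (hp.isBigO_sub_partialSum_pow (m + 1)).congr_left fun y => ?_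
  rw [zero_add, FormalMultilinearSeries.partialSum, Finset.sum_range_succ,
    Finset.sum_eq_zero fun i hi => h i (Finset.mem_range.1 hi) y, zero_add]

theorem line_Ord (w : F) : (fun t : ℝ => t • w) ∈ Ord F 1 :=
  Ord_of_analytic (by fun_prop) (zero_smul _ _)

theorem map_smul_const (m : ℕ) (κ : ℝ) (w : F) :
    p m (fun _ => κ • w) = κ ^ m • p m fun _ => w := by
  have := (p m).map_smul_univ (fun _ => κ) fun _ => w
  rwa [Finset.prod_const, Finset.card_univ, Fintype.card_fin] at this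

theorem coeff_zero (hp : HasFPowerSeriesAt G p 0) {n : ℕ}
    (h : ∀ w, (fun t : ℝ => G (t • w)) ∈ Ord E n) : ∀ m < n, ∀ w, p m (fun _ => w) = 0 := by
  intro m
  induction m using Nat.strong_induction_on with
  | _ m ih =>
    intro hm w
    have h1 := comp_Ord (lead_O hp fun i hi => ih i hi (hi.trans hm)) (line_Ord w)
    have h2 := sub_mem (Ord_anti hm (h w)) h1
    refine eq_zero_of_Ord (m := m) ?_
    convert h2 using 1
    funext t
    simp only [Pi.sub_apply, map_smul_const, sub_sub_cancel]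

theorem lead_homog (hG : AnalyticAt ℝ G 0) {n : ℕ}
    (h : ∀ w, (fun t : ℝ => G (t • w)) ∈ Ord E (n + 1)) (κ : ℝ) {z z' : ℝ → F}
    (hz : z ∈ Ord F 1) (hz' : z' ∈ Ord F 1) (hzz : z - κ • z' ∈ Ord F 2) :
    ((fun t => G (z t)) - κ ^ (n + 1) • fun t => G (z' t)) ∈ Ord E (n + 2) := by
  obtain ⟨p, hp⟩ := hG
  have h0 := lead_O hp (coeff_zero hp h)
  have h1 := comp_Ord h0 hz
  have h2 := Submodule.smul_mem _ (κ ^ (n + 1)) (comp_Ord h0 hz')
  have hk : κ • z' ∈ Ord F 1 := Submodule.smul_mem _ _ hz'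
  have h3 : (fun t => p (n + 1) (fun _ => z t) - p (n + 1) fun _ => (κ • z') t) ∈
      Ord E (n + 2) := by
    have a1 : (fun t => max ‖z t‖ ‖(κ • z') t‖) =O[𝓝 0] fun t : ℝ => ‖t‖ ^ 1 :=
      (IsBigO.prod_left hz hk).norm_left
    have a2 := ((a1.pow n).mul (IsBigO.norm_left hzz)).const_mul_left (‖p (n + 1)‖ * (n + 1 : ℕ))
    refine IsBigO.trans (IsBigO.of_norm_le fun t => ?_) (a2.congr_right fun t => by ring)
    have := (p (n + 1)).norm_image_sub_le (fun _ => z t) fun _ => (κ • z') t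
    rw [pi_norm_const, pi_norm_const, Fintype.card_fin, Nat.add_sub_cancel,
      show ((fun _ : Fin (n + 1) => z t) - fun _ => (κ • z') t) = fun _ => (z - κ • z') t from rfl,
      pi_norm_const] at this
    exact this.trans_eq (by ring)
  convert add_mem (sub_mem h1 h2) h3 using 1
  funext t
  simp only [Pi.sub_apply, Pi.add_apply, Pi.smul_apply, map_smul_const, smul_sub]
  abel

theorem zero_of_lines (hG : AnalyticAt ℝ G 0)
    (h : ∀ n w, (fun t : ℝ => G (t • w)) ∈ Ord E n) : ∀ᶠ y in 𝓝 0, G y = 0 := by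
  obtain ⟨p, hp⟩ := hG
  filter_upwards [hp.eventually_hasSum] with y hy
  rw [zero_add, funext fun m => coeff_zero hp (h (m + 1)) m (Nat.lt_succ_self m) y] at hy
  exact hy.unique hasSum_zero

theorem lin_Ord {μ : E × E → E} (hμ : AnalyticAt ℝ μ 0) (h1 : ∀ᶠ z in 𝓝 0, μ (z, 0) = z)
    (h2 : ∀ᶠ z in 𝓝 0, μ (0, z) = z) {n : ℕ} {x x' y y' : ℝ → E} (ox : x ∈ Ord E 1)
    (ox' : x' ∈ Ord E 1) (oy : y ∈ Ord E 1) (oy' : y' ∈ Ord E 1) (hx : x - x' ∈ Ord E n)
    (hy : y - y' ∈ Ord E n) :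
    ((fun t => μ (x t, y t)) - (fun t => μ (x' t, y' t)) - ((x - x') + (y - y'))) ∈
      Ord E (n + 1) := by
  obtain ⟨p, hp⟩ := hμ
  have hd := hp.hasFDerivAt
  have d1 : HasFDerivAt (fun z : E => μ (z, 0)) _ 0 :=
    HasFDerivAt.comp (0 : E) (f := fun z : E => (z, (0 : E))) hd (hasFDerivAt_prodMk_left 0 0)
  have d2 : HasFDerivAt (fun z : E => μ (0, z)) _ 0 :=
    HasFDerivAt.comp (0 : E) (f := fun z : E => ((0 : E), z)) hd (hasFDerivAt_prodMk_right 0 0)
  have e1 := d1.unique ((hasFDerivAt_id (0 : E)).congr_of_eventuallyEq h1)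
  have e2 := d2.unique ((hasFDerivAt_id (0 : E)).congr_of_eventuallyEq h2)
  have hL : ∀ a b : E, p 1 (fun _ => (a, b)) = a + b := by
    intro a b
    have f1 : continuousMultilinearCurryFin1 ℝ (E × E) E (p 1) (a, 0) = a :=
      DFunLike.congr_fun e1 a
    have f2 : continuousMultilinearCurryFin1 ℝ (E × E) E (p 1) (0, b) = b :=
      DFunLike.congr_fun e2 b
    have f3 : continuousMultilinearCurryFin1 ℝ (E × E) E (p 1) (a, b) = a + b := by
      rw [show (a, b) = (a, 0) + (0, b) by simp, map_add, f1, f2]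
    rw [← f3, continuousMultilinearCurryFin1_apply]
    congr 1
  have oz := Ord_prod (Ord_prod ox oy) (Ord_prod ox' oy')
  have h3 := hp.isBigO_image_sub_norm_mul_norm_sub.comp_tendsto (Ord_tendsto oz)
  have h4 := (IsBigO.norm_left oz).mul (IsBigO.norm_left (Ord_prod hx hy))
  refine (h3.congr (fun t => ?_) fun t => ?_).trans (h4.congr_right fun t => by ring)
  · simp only [Function.comp, Prod.mk_sub_mk, hL, Pi.sub_apply, Pi.add_apply]
  · simp only [Function.comp, Prod.mk_sub_mk, Pi.sub_apply, Prod.mk_zero_zero, sub_zero]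

end Pool.Agent.Lib.MP_ca1f03_al.Nil
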