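import Pool.Agent.Lib.MP_ca1f03_al.Nil.Abs
import Pool.Agent.Lib.MP_ca1f03_al.Nil.AnA

namespace Pool.Agent.Lib.MP_ca1f03_al.Nil

open Filter Asymptotics Topology Lp
open scoped Manifold ContDiff

variable {E : Type*} [NormedAddCommGroup E] [NormedSpace ℝ E] {Q : Type*} [TopologicalSpace Q]
  [ChartedSpace E Q] [IsManifold 𝓘(ℝ, E) ω Q]

theorem chart_smooth (a : Q) {x : Q} (hx : x ∈ (chartAt E a).source) :
    ContMDiffAt 𝓘(ℝ, E) 𝓘(ℝ, E) ω (chartAt E a) x :=
  contMDiffAt_of_mem_maximalAtlas (IsManifold.chart_mem_maximalAtlas a) hx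

theorem chart_symm_smooth (a : Q) {z : E} (hz : z ∈ (chartAt E a).target) :
    ContMDiffAt 𝓘(ℝ, E) 𝓘(ℝ, E) ω (chartAt E a).symm z :=
  contMDiffAt_symm_of_mem_maximalAtlas (IsManifold.chart_mem_maximalAtlas a) hz

theorem identity_thm [T2Space Q] [PreconnectedSpace Q] {f g : Q → Q}
    (hf : ContMDiff 𝓘(ℝ, E) 𝓘(ℝ, E) ω f) (hg : ContMDiff 𝓘(ℝ, E) 𝓘(ℝ, E) ω g) {a : Q}
    (h : f =ᶠ[𝓝 a] g) : f = g := by
  let S : Set Q := {x | f =ᶠ[𝓝 x] g}
  have ho : IsOpen S := isOpen_setOfPred_eventually_nhds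
  have hc : IsClosed S := by
    refine isClosed_of_closure_subset fun x hx => ?_
    have hfg : f x = g x :=
      (isClosed_eq hf.continuous hg.continuous).closure_subset_iff.2
        (fun y (hy : y ∈ S) => hy.self_of_nhds) hx
    let e := chartAt E x
    let e' := chartAt E (f x)
    have hx0 : x ∈ e.source := mem_chart_source E x
    have hU : e.source ∩ (f ⁻¹' e'.source ∩ g ⁻¹' e'.source) ∈ 𝓝 x := by
      refine inter_mem (e.open_source.mem_nhds hx0) (inter_mem ?_ ?_)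
      · exact hf.continuous.continuousAt (e'.open_source.mem_nhds (mem_chart_source E _))
      · exact hg.continuous.continuousAt (e'.open_source.mem_nhds (hfg ▸ mem_chart_source E _))
    have hV : e.target ∩ e.symm ⁻¹' (e.source ∩ (f ⁻¹' e'.source ∩ g ⁻¹' e'.source)) ∈
        𝓝 (e x) := by
      refine inter_mem (e.open_target.mem_nhds (e.map_source hx0)) ?_
      refine e.continuousAt_symm (e.map_source hx0) ?_
      rwa [e.left_inv hx0]
    obtain ⟨r, hr, hball⟩ := Metric.mem_nhds_iff.1 hV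
    have an : ∀ k : Q → Q, ContMDiff 𝓘(ℝ, E) 𝓘(ℝ, E) ω k →
        (∀ z ∈ Metric.ball (e x) r, k (e.symm z) ∈ e'.source) →
        AnalyticOnNhd ℝ (fun z => e' (k (e.symm z))) (Metric.ball (e x) r) := by
      intro k hk hm z hz
      exact (((chart_smooth _ (hm z hz)).comp (e.symm z) (hk _)).comp z
        (chart_symm_smooth _ (hball hz).1)).contDiffAt.analyticAt
    have hB : e.source ∩ e ⁻¹' Metric.ball (e x) r ∈ 𝓝 x :=
      inter_mem (e.open_source.mem_nhds hx0) (e.continuousAt hx0 (Metric.ball_mem_nhds _ hr))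
    obtain ⟨y, ⟨hy1, hy2⟩, hyS⟩ := mem_closure_iff_nhds.1 hx _ hB
    have ev : (fun z => e' (f (e.symm z))) =ᶠ[𝓝 (e y)] fun z => e' (g (e.symm z)) := by
      have t1 : Tendsto e.symm (𝓝 (e y)) (𝓝 y) := by
        have := e.continuousAt_symm (e.map_source hy1)
        rwa [ContinuousAt, e.left_inv hy1] at this
      filter_upwards [t1.eventually hyS] with z hz
      rw [hz]
    have eq := (an f hf fun z hz => (hball hz).2.2.1).eqOn_of_preconnected_of_eventuallyEq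
      (an g hg fun z hz => (hball hz).2.2.2) (convex_ball _ _).isPreconnected hy2 ev
    filter_upwards [hB, hU] with w hw hw'
    have := eq hw.2
    simp only [e.left_inv hw.1] at this
    exact e'.injOn hw'.2.1 hw'.2.2 this
  have := (isClopen_iff.1 ⟨hc, ho⟩).resolve_left (Set.nonempty_iff_ne_empty.1 ⟨a, h⟩)
  funext x
  exact (show x ∈ S from this ▸ Set.mem_univ x).self_of_nhds

variable [Lp Q]

/-- The loop operations are analytic. -/
structure AnLoop (E : Type*) [NormedAddCommGroup E] [NormedSpace ℝ E] (Q : Type*)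
    [TopologicalSpace Q] [ChartedSpace E Q] [Lp Q] : Prop where
  mul : ContMDiff (𝓘(ℝ, E).prod 𝓘(ℝ, E)) 𝓘(ℝ, E) ω fun p : Q × Q => p.1 * p.2
  ld : ContMDiff (𝓘(ℝ, E).prod 𝓘(ℝ, E)) 𝓘(ℝ, E) ω fun p : Q × Q => ld p.1 p.2
  rd : ContMDiff (𝓘(ℝ, E).prod 𝓘(ℝ, E)) 𝓘(ℝ, E) ω fun p : Q × Q => rd p.1 p.2

/-- Analytic germs at the origin with value the identity. -/
def Gm (E : Type*) [NormedAddCommGroup E] [NormedSpace ℝ E] {Q : Type*} [TopologicalSpace Q]
    [ChartedSpace E Q] [Lp Q] {F : Type*} [NormedAddCommGroup F] [NormedSpace ℝ F]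
    (f : F → Q) : Prop :=
  ContMDiffAt 𝓘(ℝ, F) 𝓘(ℝ, E) ω f 0 ∧ f 0 = 1

/-- The coordinate centred at the identity. -/
noncomputable def co (E : Type*) [NormedAddCommGroup E] {Q : Type*} [TopologicalSpace Q]
    [ChartedSpace E Q] [Lp Q] (q : Q) : E := chartAt E (1 : Q) q - chartAt E (1 : Q) 1

/-- The inverse coordinate. -/
noncomputable def ic {E : Type*} [NormedAddCommGroup E] (Q : Type*) [TopologicalSpace Q]
    [ChartedSpace E Q] [Lp Q] (z : E) : Q := (chartAt E (1 : Q)).symm (z + chartAt E (1 : Q) 1)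

section Germ
variable {F : Type*} [NormedAddCommGroup F] [NormedSpace ℝ F] {f g : F → Q}

omit [IsManifold 𝓘(ℝ, E) ω Q] in
theorem Gm.one : Gm E fun _ : F => (1 : Q) := ⟨contMDiffAt_const, rfl⟩

omit [IsManifold 𝓘(ℝ, E) ω Q] in
theorem Gm.mul (h : AnLoop E Q) (hf : Gm E f) (hg : Gm E g) : Gm E fun t => f t * g t :=
  ⟨(h.mul _).comp 0 (hf.1.prodMk hg.1), by beta_reduce; rw [hf.2, hg.2, one_mul]⟩

omit [IsManifold 𝓘(ℝ, E) ω Q] in
theorem Gm.ld (h : AnLoop E Q) (hf : Gm E f) (hg : Gm E g) : Gm E fun t => ld (f t) (g t) :=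
  ⟨(h.ld _).comp 0 (hf.1.prodMk hg.1), by beta_reduce; rw [hf.2, hg.2, one_ld]⟩

omit [IsManifold 𝓘(ℝ, E) ω Q] in
theorem Gm.rd (h : AnLoop E Q) (hf : Gm E f) (hg : Gm E g) : Gm E fun t => rd (f t) (g t) :=
  ⟨(h.rd _).comp 0 (hf.1.prodMk hg.1), by beta_reduce; rw [hf.2, hg.2, rd_one]⟩

theorem Gm.analytic (hf : Gm E f) : AnalyticAt ℝ (fun t => co E (f t)) 0 :=
  ((chart_smooth 1 (hf.2 ▸ mem_chart_source E _)).comp 0 hf.1).contDiffAt.analyticAt.sub
    analyticAt_const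

omit [NormedSpace ℝ E] [IsManifold 𝓘(ℝ, E) ω Q] in
theorem co_one : co E (1 : Q) = 0 := sub_self _

omit [NormedSpace ℝ E] [IsManifold 𝓘(ℝ, E) ω Q] in
theorem ic_zero : ic Q (0 : E) = 1 := by
  rw [ic, zero_add]
  exact (chartAt E (1 : Q)).left_inv (mem_chart_source E _)

omit [NormedSpace ℝ E] [IsManifold 𝓘(ℝ, E) ω Q] in
theorem ic_co : ∀ᶠ q in 𝓝 (1 : Q), ic Q (co E q) = q := by
  filter_upwards [chart_source_mem_nhds E (1 : Q)] with q hq
  rw [ic, co, sub_add_cancel, (chartAt E (1 : Q)).left_inv hq]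

omit [NormedSpace ℝ E] [IsManifold 𝓘(ℝ, E) ω Q] in
theorem co_ic : ∀ᶠ z in 𝓝 (0 : E), co E (ic Q z) = z := by
  have h1 : Tendsto (fun z : E => z + chartAt E (1 : Q) 1) (𝓝 0) (𝓝 (chartAt E (1 : Q) 1)) := by
    have : Continuous fun z : E => z + chartAt E (1 : Q) 1 := by fun_prop
    simpa using this.tendsto 0
  filter_upwards [h1.eventually (chart_target_mem_nhds E (1 : Q))] with z hz
  rw [ic, co, (chartAt E (1 : Q)).right_inv hz, add_sub_cancel_right]

theorem Gm.lin (L : F →L[ℝ] E) : Gm E fun t => ic Q (L t) := by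
  refine ⟨?_, by beta_reduce; rw [map_zero, ic_zero]⟩
  have h1 : ContDiffAt ℝ ω (fun t => L t + chartAt E (1 : Q) 1) 0 :=
    (L.contDiff.add contDiff_const).contDiffAt
  refine ContMDiffAt.comp (g := (chartAt E (1 : Q)).symm) 0 (chart_symm_smooth 1 ?_) h1.contMDiffAt
  rw [map_zero, zero_add]
  exact mem_chart_target E _

omit [IsManifold 𝓘(ℝ, E) ω Q] in
theorem Gm.ic_co (hf : Gm E f) : ∀ᶠ t in 𝓝 (0 : F), ic Q (co E (f t)) = f t := by
  have := hf.1.continuousAt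
  rw [ContinuousAt, hf.2] at this
  exact this.eventually Nil.ic_co

end Germ

/-- The loop of analytic curves through the identity. -/
def Cv (_h : AnLoop E Q) := {f : ℝ → Q // Gm E f}

instance (h : AnLoop E Q) : Lp (Cv h) where
  mul f g := ⟨fun d => f.1 d * g.1 d, f.2.mul h g.2⟩
  one := ⟨fun _ => 1, Gm.one⟩
  one_mul f := Subtype.ext (funext fun d => one_mul (f.1 d))
  mul_one f := Subtype.ext (funext fun d => mul_one (f.1 d))
  ld f g := ⟨fun d => ld (f.1 d) (g.1 d), f.2.ld h g.2⟩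
  rd f g := ⟨fun d => rd (f.1 d) (g.1 d), f.2.rd h g.2⟩
  mul_ld f g := Subtype.ext (funext fun d => mul_ld (f.1 d) (g.1 d))
  ld_mul f g := Subtype.ext (funext fun d => ld_mul (f.1 d) (g.1 d))
  rd_mul f g := Subtype.ext (funext fun d => rd_mul (f.1 d) (g.1 d))
  mul_rd f g := Subtype.ext (funext fun d => mul_rd (f.1 d) (g.1 d))

theorem Cv.ord {h : AnLoop E Q} (f : Cv h) : (fun t => co E (f.1 t)) ∈ Ord E 1 :=
  Ord_of_analytic f.2.analytic (by rw [f.2.2, co_one])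

/-- The filtration of curves by order of contact. -/
noncomputable def fil (h : AnLoop E Q) : Fil (Cv h) ℝ (ℝ → E) where
  φ f := fun t => co E (f.1 t)
  F := Ord E
  anti := Ord_anti (Nat.le_succ _)
  one x y := sub_mem x.ord y.ord
  lin {n x x' y y'} hx hy := by
    have hμ := ((Gm.lin (Q := Q) (ContinuousLinearMap.fst ℝ E E)).mul h
      (Gm.lin (ContinuousLinearMap.snd ℝ E E))).analytic
    refine Ord_congr (lin_Ord hμ ?_ ?_ x.ord x'.ord y.ord y'.ord hx hy) ?_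
    · filter_upwards [co_ic (E := E) (Q := Q)] with z hz
      change co E (ic Q z * ic Q (0 : E)) = z
      rw [ic_zero, mul_one, hz]
    · filter_upwards [co_ic (E := E) (Q := Q)] with z hz
      change co E (ic Q (0 : E) * ic Q z) = z
      rw [ic_zero, one_mul, hz]
    · filter_upwards [x.2.ic_co, x'.2.ic_co, y.2.ic_co, y'.2.ic_co] with t h1 h2 h3 h4
      change co E (ic Q (co E (x.1 t)) * ic Q (co E (y.1 t))) -
        co E (ic Q (co E (x'.1 t)) * ic Q (co E (y'.1 t))) - _ = _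
      rw [h1, h2, h3, h4]
      rfl

/-- The Bol defect in coordinates. -/
noncomputable def GG (Q : Type*) [TopologicalSpace Q] [ChartedSpace E Q] [Lp Q]
    (z : E × E × E) : E :=
  co E (rd (ic Q z.1) (ic Q z.2.2) * ld (ic Q z.2.1) (ic Q z.1)) -
    co E (jj (ic Q z.1) (ic Q z.2.1 * ic Q z.2.2))

theorem GG_analytic (h : AnLoop E Q) : AnalyticAt ℝ (GG (E := E) Q) 0 := by
  have g1 := Gm.lin (Q := Q) (ContinuousLinearMap.fst ℝ E (E × E))
  have g2 := Gm.lin (Q := Q)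
    ((ContinuousLinearMap.fst ℝ E E).comp (ContinuousLinearMap.snd ℝ E (E × E)))
  have g3 := Gm.lin (Q := Q)
    ((ContinuousLinearMap.snd ℝ E E).comp (ContinuousLinearMap.snd ℝ E (E × E)))
  exact ((g1.rd h g3).mul h (g2.ld h g1)).analytic.sub
    ((g1.rd h (g2.mul h g3)).mul h g1).analytic

theorem bol_eq (h : AnLoop E Q) (c x y : Cv h) : (fil h).bol c x y =ᶠ[𝓝 0]
    fun t => GG Q (co E (c.1 t), co E (x.1 t), co E (y.1 t)) := by
  filter_upwards [c.2.ic_co, x.2.ic_co, y.2.ic_co] with t h1 h2 h3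
  simp only [GG, h1, h2, h3]
  rfl

theorem lines (h : AnLoop E Q) {n : ℕ} (hn : ∀ c x y, (fil h).bol c x y ∈ Ord E n)
    (w : E × E × E) : (fun t : ℝ => GG Q (t • w)) ∈ Ord E n := by
  let l : E → Cv h := fun a => ⟨_, Gm.lin (ContinuousLinearMap.toSpanSingleton ℝ a)⟩
  have hl : ∀ a, ∀ᶠ t : ℝ in 𝓝 0, co E ((l a).1 t) = t • a := fun a =>
    (Ord_tendsto (line_Ord a)).eventually co_ic
  refine Ord_congr (hn (l w.1) (l w.2.1) (l w.2.2)) ((bol_eq h _ _ _).trans ?_)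
  filter_upwards [hl w.1, hl w.2.1, hl w.2.2] with t h1 h2 h3
  rw [h1, h2, h3]
  rfl

theorem GG_zero (h : AnLoop E Q) (hS : SUF Q) : ∀ᶠ z in 𝓝 (0 : E × E × E), GG Q z = 0 := by
  have hS' : SUF (Cv h) :=
    ⟨fun a u t => Subtype.ext (funext fun d => hS.1 (a.1 d) (u.1 d) (t.1 d)),
      fun b u t => Subtype.ext (funext fun d => hS.2 (b.1 d) (u.1 d) (t.1 d))⟩
  have h0 : (fil h).φ 1 = 0 := funext fun _ => co_one
  have all := (fil h).bol_all (1 / 2) (by norm_num) hS' fun n hn κ c x y c' x' y' hc hx hy => by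
    rw [h0, sub_zero, sub_zero] at hc hx hy
    have := lead_homog (GG_analytic h) (lines h hn) κ (Ord_prod c.ord (Ord_prod x.ord y.ord))
      (Ord_prod c'.ord (Ord_prod x'.ord y'.ord)) (Ord_prod hc (Ord_prod hx hy))
    refine Ord_congr this ?_
    filter_upwards [bol_eq h c x y, bol_eq h c' x' y'] with t h1 h2
    simp only [Pi.sub_apply, Pi.smul_apply, h1, h2]
  exact zero_of_lines (GG_analytic h) fun n w => Ord_anti (Nat.le_add_right n 2) (lines h (all n) w)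

theorem MB_analytic [T2Space Q] [PreconnectedSpace Q] (h : AnLoop E Q) (hS : SUF Q) (c x y : Q) :
    rd c y * ld x c = jj c (x * y) := by
  have m2 : ∀ {op : Q → Q → Q},
      ContMDiff (𝓘(ℝ, E).prod 𝓘(ℝ, E)) 𝓘(ℝ, E) ω (fun p : Q × Q => op p.1 p.2) →
      ∀ {M : Type _} [TopologicalSpace M] [ChartedSpace E M] {f g : M → Q},
      ContMDiff 𝓘(ℝ, E) 𝓘(ℝ, E) ω f → ContMDiff 𝓘(ℝ, E) 𝓘(ℝ, E) ω g →
      ContMDiff 𝓘(ℝ, E) 𝓘(ℝ, E) ω fun q => op (f q) (g q) :=
    fun hop _ _ _ _ _ hf hg => hop.comp (hf.prodMk hg)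
  have sm : ∀ {c x y : Q → Q}, ContMDiff 𝓘(ℝ, E) 𝓘(ℝ, E) ω c → ContMDiff 𝓘(ℝ, E) 𝓘(ℝ, E) ω x →
      ContMDiff 𝓘(ℝ, E) 𝓘(ℝ, E) ω y →
      (∀ᶠ q in 𝓝 (1 : Q), rd (c q) (y q) * ld (x q) (c q) = jj (c q) (x q * y q)) →
      ∀ q, rd (c q) (y q) * ld (x q) (c q) = jj (c q) (x q * y q) := by
    intro c x y hc hx hy hq
    exact congrFun (identity_thm (m2 h.mul (m2 h.rd hc hy) (m2 h.ld hx hc))
      (m2 h.mul (m2 h.rd hc (m2 h.mul hx hy)) hc) hq)
  have tco : Tendsto (co E : Q → E) (𝓝 1) (𝓝 0) := by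
    have : ContinuousAt (co E : Q → E) 1 :=
      ((chartAt E (1 : Q)).continuousAt (mem_chart_source E _)).sub continuousAt_const
    rwa [ContinuousAt, co_one] at this
  have loc : ∀ᶠ p : Q × Q × Q in 𝓝 (1, 1, 1),
      rd p.1 p.2.2 * ld p.2.1 p.1 = jj p.1 (p.2.1 * p.2.2) := by
    have p1 : Tendsto (fun p : Q × Q × Q => p.1) (𝓝 (1, 1, 1)) (𝓝 1) := continuous_fst.tendsto _
    have p2 : Tendsto (fun p : Q × Q × Q => p.2.1) (𝓝 (1, 1, 1)) (𝓝 1) :=
      continuous_snd.fst.tendsto _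
    have p3 : Tendsto (fun p : Q × Q × Q => p.2.2) (𝓝 (1, 1, 1)) (𝓝 1) :=
      continuous_snd.snd.tendsto _
    have c2 : ∀ {op : Q → Q → Q}, Continuous (fun p : Q × Q => op p.1 p.2) → op 1 1 = 1 →
        ∀ {f g : Q × Q × Q → Q}, Tendsto f (𝓝 (1, 1, 1)) (𝓝 1) →
        Tendsto g (𝓝 (1, 1, 1)) (𝓝 1) → Tendsto (fun p => op (f p) (g p)) (𝓝 (1, 1, 1)) (𝓝 1) := by
      intro op hop h1 f g hf hg
      have := (hop.tendsto (1, 1)).comp (hf.prodMk_nhds hg)
      rwa [h1] at this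
    have cm := @c2 (· * ·) h.mul.continuous (one_mul 1)
    have cl := @c2 ld h.ld.continuous (one_ld 1)
    have cr := @c2 rd h.rd.continuous (rd_one 1)
    have t3 := (tco.comp p1).prodMk_nhds ((tco.comp p2).prodMk_nhds (tco.comp p3))
    filter_upwards [t3.eventually (GG_zero h hS), p1.eventually (ic_co (E := E)),
      p2.eventually (ic_co (E := E)), p3.eventually (ic_co (E := E)),
      (cm (cr p1 p3) (cl p2 p1)).eventually (ic_co (E := E)),
      (cm (cr p1 (cm p2 p3)) p1).eventually (ic_co (E := E))] with p h0 h1 h2 h3 h4 h5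
    simp only [GG, Function.comp, h1, h2, h3] at h0
    rw [← h4, sub_eq_zero.1 h0]
    exact h5
  rw [nhds_prod_eq, nhds_prod_eq] at loc
  obtain ⟨P1, h1, P23, h23, hP⟩ := eventually_prod_iff.1 loc
  obtain ⟨P2, h2, P3, h3, hP'⟩ := eventually_prod_iff.1 h23
  have s1 : ∀ x y, P2 x → P3 y → ∀ c, rd c y * ld x c = jj c (x * y) := fun x y hx hy =>
    sm contMDiff_id contMDiff_const contMDiff_const (h1.mono fun c hc => hP hc (hP' hx hy))
  have s2 : ∀ c y, P3 y → ∀ x, rd c y * ld x c = jj c (x * y) := fun c y hy =>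
    sm contMDiff_const contMDiff_id contMDiff_const (h2.mono fun x hx => s1 x y hx hy c)
  exact sm contMDiff_const contMDiff_const contMDiff_id (h3.mono fun y hy => s2 c y hy x) y

end Pool.Agent.Lib.MP_ca1f03_al.Nil
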