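import Pool.Agent.Lib.MP_ca1f03_al.Nil.Layer
import Pool.Agent.Lib.MP_ca1f03_al.Nil.Loc

namespace Pool.Agent.Lib.MP_ca1f03_al.Nil

open Lp

section Filt
variable {W R : Type*} [NonAssocRing R]

/-- Bracketed products of `n` augmentation elements. -/
inductive Mono (φ : W → R) : ℕ → R → Prop
  | base (q : W) : Mono φ 1 (φ q - 1)
  | mul {i j : ℕ} {a b : R} : Mono φ i a → Mono φ j b → Mono φ (i + j) (a * b)

theorem Mono.pos {φ : W → R} {m : ℕ} {a : R} (h : Mono φ m a) : 1 ≤ m := by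
  induction h with
  | base => exact le_rfl
  | mul _ _ h1 _ => omega

variable (k : Type*) [CommRing k] [Module k R]

/-- The `n`-th power of the augmentation ideal. -/
def FF (φ : W → R) (n : ℕ) : Submodule k R :=
  Submodule.span k {a | ∃ m, n ≤ m ∧ Mono φ m a}

variable {k} {φ : W → R}

theorem Mono.mem {m n : ℕ} {a : R} (h : Mono φ m a) (hn : n ≤ m) : a ∈ FF k φ n :=
  Submodule.subset_span ⟨m, hn, h⟩

theorem FF_anti {m n : ℕ} (h : n ≤ m) {a : R} (ha : a ∈ FF k φ m) : a ∈ FF k φ n := by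
  refine Submodule.span_mono ?_ ha
  rintro _ ⟨k, hk, hx⟩
  exact ⟨k, h.trans hk, hx⟩

theorem aug_mem (q : W) : φ q - 1 ∈ FF k φ 1 := (Mono.base q).mem le_rfl

theorem sub_mem_one (x y : W) : φ x - φ y ∈ FF k φ 1 := by
  have := sub_mem (aug_mem (k := k) (φ := φ) x) (aug_mem y)
  rwa [sub_sub_sub_cancel_right] at this

theorem map_mono {W' R' : Type*} [NonAssocRing R'] [Module k R'] {φ' : W' → R'}
    (σ : R →ₗ[k] R') (s : W → W')
    (h1 : σ 1 = 1) (hm : ∀ a b, σ (a * b) = σ a * σ b) (hs : ∀ q, σ (φ q) = φ' (s q))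
    {m : ℕ} {a : R} (h : Mono φ m a) : Mono φ' m (σ a) := by
  induction h with
  | base q => rw [map_sub, h1, hs]; exact Mono.base _
  | mul _ _ i1 i2 => rw [hm]; exact i1.mul i2

theorem map_FF {W' R' : Type*} [NonAssocRing R'] [Module k R'] {φ' : W' → R'}
    (σ : R →ₗ[k] R') (s : W → W')
    (h1 : σ 1 = 1) (hm : ∀ a b, σ (a * b) = σ a * σ b) (hs : ∀ q, σ (φ q) = φ' (s q))
    {n : ℕ} {a : R} (h : a ∈ FF k φ n) : σ a ∈ FF k φ' n := by
  induction h using Submodule.span_induction with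
  | mem a ha =>
    obtain ⟨m, hm', ha⟩ := ha
    exact (map_mono σ s h1 hm hs ha).mem hm'
  | zero => rw [map_zero]; exact zero_mem _
  | add x y _ _ hx hy => rw [map_add]; exact add_mem hx hy
  | smul c x _ hx => rw [map_smul]; exact Submodule.smul_mem _ _ hx

variable [IsScalarTower k R R] [SMulCommClass k R R]

theorem FF_mul {i j : ℕ} {a b : R} (ha : a ∈ FF k φ i) (hb : b ∈ FF k φ j) :
    a * b ∈ FF k φ (i + j) := by
  induction ha using Submodule.span_induction with
  | mem a ha =>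
    obtain ⟨m, hm, ha⟩ := ha
    induction hb using Submodule.span_induction with
    | mem b hb =>
      obtain ⟨k, hk, hb⟩ := hb
      exact (ha.mul hb).mem (by omega)
    | zero => rw [mul_zero]; exact zero_mem _
    | add x y _ _ hx hy => rw [mul_add]; exact add_mem hx hy
    | smul c x _ hx => rw [mul_smul_comm]; exact Submodule.smul_mem _ _ hx
  | zero => rw [zero_mul]; exact zero_mem _
  | add x y _ _ hx hy => rw [add_mul]; exact add_mem hx hy
  | smul c x _ hx => rw [smul_mul_assoc]; exact Submodule.smul_mem _ _ hx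

theorem lin {n : ℕ} {x x' y y' : W} (hx : φ x - φ x' ∈ FF k φ n) (hy : φ y - φ y' ∈ FF k φ n) :
    φ x * φ y - φ x' * φ y' - ((φ x - φ x') + (φ y - φ y')) ∈ FF k φ (n + 1) := by
  have h1 := FF_mul hx (aug_mem y)
  have h2 := FF_mul (aug_mem x') hy
  rw [add_comm 1 n] at h2
  have e : φ x * φ y - φ x' * φ y' - ((φ x - φ x') + (φ y - φ y')) =
      (φ x - φ x') * (φ y - 1) + (φ x' - 1) * (φ y - φ y') := by
    simp only [sub_mul, mul_sub, mul_one, one_mul]
    abel
  rw [e]
  exact add_mem h1 h2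

theorem map_sub_FF (σ τ : R →ₗ[k] R) (s t : W → W) (κ : k)
    (h1 : σ 1 = 1) (hm : ∀ a b, σ (a * b) = σ a * σ b) (hs : ∀ q, σ (φ q) = φ (s q))
    (k1 : τ 1 = 1) (km : ∀ a b, τ (a * b) = τ a * τ b) (ks : ∀ q, τ (φ q) = φ (t q))
    (hst : ∀ q, (φ (s q) - 1) - κ • (φ (t q) - 1) ∈ FF k φ 2)
    {n : ℕ} {a : R} (h : a ∈ FF k φ n) : σ a - κ ^ n • τ a ∈ FF k φ (n + 1) := by
  have key : ∀ {m : ℕ} {a : R}, Mono φ m a → σ a - κ ^ m • τ a ∈ FF k φ (m + 1) := by
    intro m a h
    induction h with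
    | base q =>
      rw [map_sub, map_sub, h1, k1, hs, ks, pow_one]
      exact hst q
    | @mul i j a b ha hb i1 i2 =>
      have p1 := FF_mul ((map_mono σ s h1 hm hs ha).mem (k := k) le_rfl) i2
      have p2 := FF_mul i1 (Submodule.smul_mem _ (κ ^ j)
        ((map_mono τ t k1 km ks hb).mem (k := k) le_rfl))
      have e : σ (a * b) - κ ^ (i + j) • τ (a * b) =
          σ a * (σ b - κ ^ j • τ b) + (σ a - κ ^ i • τ a) * (κ ^ j • τ b) := by
        rw [hm, km, mul_sub, sub_mul, smul_mul_assoc, mul_smul_comm (κ ^ j) (τ a), smul_smul,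
          ← pow_add]
        abel
      rw [e]
      exact add_mem (FF_anti (by omega) p1) (FF_anti (by omega) p2)
  induction h using Submodule.span_induction with
  | mem a ha =>
    obtain ⟨m, hm', ha⟩ := ha
    rcases hm'.eq_or_lt with rfl | hlt
    · exact key ha
    · exact sub_mem ((map_mono σ s h1 hm hs ha).mem hlt)
        (Submodule.smul_mem _ _ ((map_mono τ t k1 km ks ha).mem hlt))
  | zero => rw [map_zero, map_zero, smul_zero, sub_zero]; exact zero_mem _
  | add x y _ _ hx hy =>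
    rw [map_add, map_add, smul_add, add_sub_add_comm]
    exact add_mem hx hy
  | smul c x _ hx =>
    rw [map_smul, map_smul, smul_comm, ← smul_sub]
    exact Submodule.smul_mem _ _ hx

end Filt

section Lay
variable {W R : Type*} [Lp W] [NonAssocRing R] {k : Type*} [CommRing k] [Module k R]
  [IsScalarTower k R R] [SMulCommClass k R R] {φ : W → R}
  (hφ : ∀ x y, φ (x * y) = φ x * φ y)
include hφ

theorem rel_mul {n : ℕ} {x x' y y' : W} (hx : φ x - φ x' ∈ FF k φ n)
    (hy : φ y - φ y' ∈ FF k φ n) : φ (x * y) - φ (x' * y') ∈ FF k φ n := by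
  have := add_mem (FF_anti (Nat.le_succ n) (lin hx hy)) (add_mem hx hy)
  rwa [sub_add_cancel, ← hφ, ← hφ] at this

theorem rel_ld {n : ℕ} {x x' y y' : W} (hx : φ x - φ x' ∈ FF k φ n)
    (hy : φ y - φ y' ∈ FF k φ n) : φ (ld x y) - φ (ld x' y') ∈ FF k φ n := by
  induction n with
  | zero => exact FF_anti (Nat.zero_le 1) (sub_mem_one _ _)
  | succ n ih =>
    have h0 := ih (FF_anti (Nat.le_succ n) hx) (FF_anti (Nat.le_succ n) hy)
    have h1 := lin (FF_anti (Nat.le_succ n) hx) h0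
    rw [← hφ, ← hφ, mul_ld, mul_ld] at h1
    have := sub_mem (sub_mem hy hx) h1
    convert this using 1
    abel

theorem rel_rd {n : ℕ} {x x' y y' : W} (hx : φ x - φ x' ∈ FF k φ n)
    (hy : φ y - φ y' ∈ FF k φ n) : φ (rd x y) - φ (rd x' y') ∈ FF k φ n := by
  induction n with
  | zero => exact FF_anti (Nat.zero_le 1) (sub_mem_one _ _)
  | succ n ih =>
    have h0 := ih (FF_anti (Nat.le_succ n) hx) (FF_anti (Nat.le_succ n) hy)
    have h1 := lin h0 (FF_anti (Nat.le_succ n) hy)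
    rw [← hφ, ← hφ, rd_mul, rd_mul] at h1
    have := sub_mem (sub_mem hx hy) h1
    convert this using 1
    abel

variable (k)

theorem ab_mul (x y : W) : (FF k φ 2).mkQ (φ (x * y) - 1) =
    (FF k φ 2).mkQ (φ x - 1) + (FF k φ 2).mkQ (φ y - 1) := by
  rw [← map_add, Submodule.mkQ_apply, Submodule.mkQ_apply, Submodule.Quotient.eq, hφ]
  have := FF_mul (aug_mem (k := k) (φ := φ) x) (aug_mem y)
  convert this using 1
  simp only [sub_mul, mul_sub, mul_one, one_mul]
  abel

theorem ab_one : (FF k φ 2).mkQ (φ 1 - 1) = 0 := by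
  have := ab_mul k hφ 1 1
  rw [one_mul] at this
  exact left_eq_add.1 this

/-- The image of the loop in the first graded piece. -/
def abel1 : AddSubgroup (R ⧸ FF k φ 2) where
  carrier := Set.range fun x : W => (FF k φ 2).mkQ (φ x - 1)
  add_mem' := by
    rintro _ _ ⟨x, rfl⟩ ⟨y, rfl⟩
    exact ⟨x * y, ab_mul k hφ x y⟩
  zero_mem' := ⟨1, ab_one k hφ⟩
  neg_mem' := by
    rintro _ ⟨x, rfl⟩
    refine ⟨ld x 1, eq_neg_of_add_eq_zero_right ?_⟩
    rw [← ab_mul k hφ, mul_ld]
    exact ab_one k hφ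

/-- The layer of degree `n`. -/
def layer (n : ℕ) : Layer W (abel1 k hφ) (R ⧸ FF k φ (n + 1)) where
  r x y := φ x - φ y ∈ FF k φ n
  ψ x := (FF k φ (n + 1)).mkQ (φ x)
  π x := ⟨(FF k φ 2).mkQ (φ x - 1), x, rfl⟩
  r_refl x := by rw [sub_self]; exact zero_mem _
  r_symm h := by rw [← neg_sub]; exact neg_mem h
  r_trans h h' := by
    have := add_mem h h'
    rwa [sub_add_sub_cancel] at this
  r_mul := rel_mul hφ
  r_ld := rel_ld hφ
  r_rd := rel_rd hφ
  ψ_mul hx hy := by
    simp only [← map_sub, ← map_add]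
    rw [Submodule.mkQ_apply, Submodule.mkQ_apply, Submodule.Quotient.eq, hφ, hφ]
    exact lin hx hy
  π_mul x y := Subtype.ext (ab_mul k hφ x y)
  π_surj := by
    rintro ⟨_, x, rfl⟩
    exact ⟨x, rfl⟩

theorem MB_two : (layer k hφ 2).MB := by
  intro c x y
  have : (layer k hφ 2).π (rd c y * ld x c) = (layer k hφ 2).π (jj c (x * y)) := by
    simp only [jj, Layer.π_mul, Layer.π_ld, Layer.π_rd]
    abel
  have h2 := (Submodule.Quotient.eq _).1 (congrArg Subtype.val this)
  rwa [sub_sub_sub_cancel_right] at h2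

theorem MB_succ (e : k) (he : e * 2 = 1) (hS : SUF W) (n : ℕ) (h : (layer k hφ n).MB)
    (hsub : ∀ (m : ℕ) (c x y c' x' y' : W), (layer k hφ n).π c = m • (layer k hφ n).π c' →
      (layer k hφ n).π x = m • (layer k hφ n).π x' →
      (layer k hφ n).π y = m • (layer k hφ n).π y' →
      (layer k hφ n).Φ c x y = (m : k) ^ n • (layer k hφ n).Φ c' x' y') :
    (layer k hφ (n + 1)).MB := by
  choose s hs using (layer k hφ n).π_surj
  have hΔ : ∀ c x y, (layer k hφ n).Φ c x y = (layer k hφ n).Φ (s ((layer k hφ n).π c))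
      (s ((layer k hφ n).π x)) (s ((layer k hφ n).π y)) := by
    intro c x y
    have := hsub 1 c x y _ _ _ (by rw [hs, one_smul]) (by rw [hs, one_smul])
      (by rw [hs, one_smul])
    rwa [Nat.cast_one, one_pow, one_smul] at this
  have hyp := Layer.step hS h (fun a b d => (layer k hφ n).Φ (s a) (s b) (s d)) hΔ
  intro c x y
  have := hyp.zero_of_homog e he _ n (fun a b d => by
    have := hsub 2 (s (2 • a)) (s (2 • b)) (s (2 • d)) (s a) (s b) (s d) (by rw [hs, hs])
      (by rw [hs, hs]) (by rw [hs, hs])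
    rwa [Nat.cast_ofNat] at this) ((layer k hφ n).π c) ((layer k hφ n).π x) ((layer k hφ n).π y)
  rw [← hΔ] at this
  exact (Submodule.Quotient.eq _).1 (sub_eq_zero.1 this)

end Lay

end Pool.Agent.Lib.MP_ca1f03_al.Nil
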