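import Pool.Agent.Lib.MP_ca1f03_al.Nil.Filt

namespace Pool.Agent.Lib.MP_ca1f03_al.Nil

open Lp

section Free
variable {Q : Type*} [Lp Q]

/-- Term functions in three variables. -/
inductive Term : (Q × Q × Q → Q) → Prop
  | x0 : Term fun d => d.1
  | x1 : Term fun d => d.2.1
  | x2 : Term fun d => d.2.2
  | one : Term fun _ => 1
  | mul {f g} : Term f → Term g → Term fun d => f d * g d
  | ld {f g} : Term f → Term g → Term fun d => ld (f d) (g d)
  | rd {f g} : Term f → Term g → Term fun d => rd (f d) (g d)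

/-- The loop of term functions. -/
def TW (Q : Type*) [Lp Q] := {f : Q × Q × Q → Q // Term f}

instance : Lp (TW Q) where
  mul f g := ⟨fun d => f.1 d * g.1 d, f.2.mul g.2⟩
  one := ⟨fun _ => 1, Term.one⟩
  one_mul f := Subtype.ext (funext fun d => one_mul (f.1 d))
  mul_one f := Subtype.ext (funext fun d => mul_one (f.1 d))
  ld f g := ⟨fun d => ld (f.1 d) (g.1 d), f.2.ld g.2⟩
  rd f g := ⟨fun d => rd (f.1 d) (g.1 d), f.2.rd g.2⟩
  mul_ld f g := Subtype.ext (funext fun d => mul_ld (f.1 d) (g.1 d))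
  ld_mul f g := Subtype.ext (funext fun d => ld_mul (f.1 d) (g.1 d))
  rd_mul f g := Subtype.ext (funext fun d => rd_mul (f.1 d) (g.1 d))
  mul_rd f g := Subtype.ext (funext fun d => mul_rd (f.1 d) (g.1 d))

theorem Term.subst {c x y f : Q × Q × Q → Q} (hc : Term c) (hx : Term x) (hy : Term y)
    (hf : Term f) : Term fun d => f (c d, x d, y d) := by
  induction hf with
  | x0 => exact hc
  | x1 => exact hx
  | x2 => exact hy
  | one => exact Term.one
  | mul _ _ i1 i2 => exact i1.mul i2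
  | ld _ _ i1 i2 => exact i1.ld i2
  | rd _ _ i1 i2 => exact i1.rd i2

/-- Substitution of three terms for the variables. -/
def sb (c x y : TW Q) : TW Q →* TW Q where
  toFun f := ⟨fun d => f.1 (c.1 d, x.1 d, y.1 d), Term.subst c.2 x.2 y.2 f.2⟩
  map_one' := rfl
  map_mul' _ _ := rfl

/-- Evaluation of terms at a point. -/
def ev (d : Q × Q × Q) : TW Q →* Q where
  toFun f := f.1 d
  map_one' := rfl
  map_mul' _ _ := rfl

def X0 : TW Q := ⟨_, Term.x0⟩
def X1 : TW Q := ⟨_, Term.x1⟩
def X2 : TW Q := ⟨_, Term.x2⟩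

theorem SUF_TW (h : SUF Q) : SUF (TW Q) :=
  ⟨fun a u t => Subtype.ext (funext fun d => h.1 (a.1 d) (u.1 d) (t.1 d)),
    fun b u t => Subtype.ext (funext fun d => h.2 (b.1 d) (u.1 d) (t.1 d))⟩

theorem π_sb {A Z : Type*} [AddCommGroup A] [AddCommGroup Z] (L : Layer (TW Q) A Z) (m : ℕ)
    {c x y c' x' y' : TW Q} (hc : L.π c = m • L.π c') (hx : L.π x = m • L.π x')
    (hy : L.π y = m • L.π y') (q : TW Q) : L.π (sb c x y q) = m • L.π (sb c' x' y' q) := by
  obtain ⟨f, hf⟩ := q
  induction hf with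
  | x0 => exact hc
  | x1 => exact hx
  | x2 => exact hy
  | one =>
    change L.π 1 = m • L.π 1
    rw [L.π_one, smul_zero]
  | @mul f g hf hg i1 i2 =>
    change L.π (sb c x y ⟨f, hf⟩ * sb c x y ⟨g, hg⟩) =
      m • L.π (sb c' x' y' ⟨f, hf⟩ * sb c' x' y' ⟨g, hg⟩)
    rw [L.π_mul, L.π_mul, i1, i2, smul_add]
  | @ld f g hf hg i1 i2 =>
    change L.π (ld (sb c x y ⟨f, hf⟩) (sb c x y ⟨g, hg⟩)) =
      m • L.π (ld (sb c' x' y' ⟨f, hf⟩) (sb c' x' y' ⟨g, hg⟩))
    rw [L.π_ld, L.π_ld, i1, i2, smul_sub]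
  | @rd f g hf hg i1 i2 =>
    change L.π (rd (sb c x y ⟨f, hf⟩) (sb c x y ⟨g, hg⟩)) =
      m • L.π (rd (sb c' x' y' ⟨f, hf⟩) (sb c' x' y' ⟨g, hg⟩))
    rw [L.π_rd, L.π_rd, i1, i2, smul_sub]

end Free

section Alg
variable (k : Type*) [CommRing k]

/-- The basis element of the loop algebra. -/
noncomputable def bas {W : Type*} (q : W) : MonoidAlgebra k W := MonoidAlgebra.single q 1

theorem bas_mul {W : Type*} [Mul W] (x y : W) : bas k (x * y) = bas k x * bas k y := by
  rw [bas, bas, bas, MonoidAlgebra.single_mul_single, one_mul]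

/-- The linear map induced by a loop homomorphism. -/
noncomputable def lm {W W' : Type*} [MulOneClass W] [MulOneClass W'] (s : W →* W') :
    MonoidAlgebra k W →ₗ[k] MonoidAlgebra k W' := MonoidAlgebra.mapDomainLinearMap k k s

theorem lm_bas {W W' : Type*} [MulOneClass W] [MulOneClass W'] (s : W →* W') (q : W) :
    lm k s (bas k q) = bas k (s q) := MonoidAlgebra.mapDomain_single

theorem lm_one {W W' : Type*} [MulOneClass W] [MulOneClass W'] (s : W →* W') :
    lm k s 1 = 1 := by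
  have := lm_bas k s 1
  rwa [map_one] at this

theorem lm_mul {W W' : Type*} [MulOneClass W] [MulOneClass W'] (s : W →* W')
    (a b : MonoidAlgebra k W) : lm k s (a * b) = lm k s a * lm k s b :=
  MonoidAlgebra.mapDomain_mul s a b

variable {Q : Type*} [Lp Q]

theorem MB_all (e : k) (he : e * 2 = 1) (hS : SUF Q) (n : ℕ) :
    (layer k (bas_mul k (W := TW Q)) (n + 2)).MB := by
  induction n with
  | zero => exact MB_two k _
  | succ n ih =>
    refine MB_succ k _ e he (SUF_TW hS) (n + 2) ih fun m c x y c' x' y' hc hx hy => ?_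
    have hq := fun q => congrArg Subtype.val (π_sb _ m hc hx hy q)
    have := map_sub_FF (φ := bas k) (lm k (sb c x y)) (lm k (sb c' x' y')) (sb c x y)
      (sb c' x' y') (m : k) (lm_one k _) (lm_mul k _) (lm_bas k _) (lm_one k _) (lm_mul k _)
      (lm_bas k _) (fun q => by
        rw [← Submodule.Quotient.eq, Submodule.Quotient.mk_smul, Nat.cast_smul_eq_nsmul]
        exact hq q) (ih X0 X1 X2)
    rw [← Submodule.Quotient.eq, Submodule.Quotient.mk_smul, map_sub, map_sub, lm_bas, lm_bas,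
      lm_bas, lm_bas, Submodule.Quotient.mk_sub, Submodule.Quotient.mk_sub] at this
    exact this

theorem MB_mod (e : k) (he : e * 2 = 1) (hS : SUF Q) (n : ℕ) (c x y : Q) :
    bas k (rd c y * ld x c) - bas k (jj c (x * y)) ∈ FF k (bas k : Q → _) n := by
  have := map_FF (φ := bas k) (φ' := bas k) (lm k (ev (c, x, y))) (ev (c, x, y)) (lm_one k _)
    (lm_mul k _) (lm_bas k _) (MB_all k e he hS n X0 X1 X2)
  rw [map_sub, lm_bas, lm_bas] at this
  exact FF_anti (Nat.le_add_right n 2) this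

end Alg

section UF
variable {Q : Type*} [Lp Q]

theorem UF_of_MB (hS : SUF Q) (h : ∀ c x y : Q, rd c y * ld x c = jj c (x * y)) (b a u t : Q) :
    PP b a u t = PQ b a u t := by
  let L : Layer Q Unit Unit :=
    { r := Eq
      ψ := fun _ => 0
      π := fun _ => 0
      r_refl := fun _ => rfl
      r_symm := Eq.symm
      r_trans := Eq.trans
      r_mul := fun h1 h2 => by rw [h1, h2]
      r_ld := fun h1 h2 => by rw [h1, h2]
      r_rd := fun h1 h2 => by rw [h1, h2]
      ψ_mul := fun _ _ => rfl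
      π_mul := fun _ _ => rfl
      π_surj := fun _ => ⟨1, rfl⟩ }
  exact Layer.MB.r_PP (L := L) h hS b a u t

end UF

end Pool.Agent.Lib.MP_ca1f03_al.Nil
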