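import Pool.Agent.Lib.MP_ca1f03_al.Nil.Alg

namespace Pool.Agent.Lib.MP_ca1f03_al.Nil

/-- A loop, bundled with its two divisions. -/
class Lp (W : Type*) extends MulOneClass W where
  ld : W → W → W
  rd : W → W → W
  mul_ld : ∀ a y : W, a * ld a y = y
  ld_mul : ∀ a y : W, ld a (a * y) = y
  rd_mul : ∀ y a : W, rd y a * a = y
  mul_rd : ∀ y a : W, rd (y * a) a = y

open Lp

section Basic
variable {W : Type*} [Lp W]

theorem ld_rd (c z : W) : ld (rd c z) c = z := by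
  have := ld_mul (rd c z) z
  rwa [rd_mul] at this

theorem rd_ld (c x : W) : rd c (ld x c) = x := by
  have := mul_rd x (ld x c)
  rwa [mul_ld] at this

theorem one_ld (c : W) : ld 1 c = c := by
  have := mul_ld 1 c
  rwa [one_mul] at this

theorem rd_one (c : W) : rd c 1 = c := by
  have := rd_mul c 1
  rwa [mul_one] at this

theorem ld_self (c : W) : ld c c = 1 := by
  have := ld_mul c 1
  rwa [mul_one] at this

def opA (b u z : W) : W := u * ld b z
def opB (a v z : W) : W := rd z a * v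
def vv (b a u : W) : W := ld b (u * a)
def PP (b a u t : W) : W := opA b u (opB a (vv b a u) t)
def PQ (b a u t : W) : W := opB a (vv b a u) (opA b u t)
def jj (c z : W) : W := rd c z * c

/-- Semi-universal flexibility in commutation form. -/
def SUF (W : Type*) [Lp W] : Prop :=
  (∀ a u t : W, PP 1 a u t = PQ 1 a u t) ∧ ∀ b u t : W, PP b 1 u t = PQ b 1 u t

theorem mul_vv (b a u : W) : b * vv b a u = u * a := mul_ld _ _

end Basic

/-- One layer of a filtration of a loop. -/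
structure Layer (W : Type*) [Lp W] (A Z : Type*) [AddCommGroup A] [AddCommGroup Z] where
  r : W → W → Prop
  ψ : W → Z
  π : W → A
  r_refl : ∀ x, r x x
  r_symm : ∀ {x y}, r x y → r y x
  r_trans : ∀ {x y z}, r x y → r y z → r x z
  r_mul : ∀ {x x' y y'}, r x x' → r y y' → r (x * y) (x' * y')
  r_ld : ∀ {x x' y y'}, r x x' → r y y' → r (ld x y) (ld x' y')
  r_rd : ∀ {x x' y y'}, r x x' → r y y' → r (rd x y) (rd x' y')
  ψ_mul : ∀ {x x' y y'}, r x x' → r y y' →
    ψ (x * y) - ψ (x' * y') = (ψ x - ψ x') + (ψ y - ψ y')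
  π_mul : ∀ x y, π (x * y) = π x + π y
  π_surj : Function.Surjective π

namespace Layer
variable {W : Type*} [Lp W] {A Z : Type*} [AddCommGroup A] [AddCommGroup Z] (L : Layer W A Z)

def N (x x' : W) (z : Z) : Prop := L.r x x' ∧ L.ψ x - L.ψ x' = z

variable {L}

theorem N.refl (x : W) : L.N x x 0 := ⟨L.r_refl x, sub_self _⟩

theorem N.symm {x y : W} {z : Z} (h : L.N x y z) : L.N y x (-z) :=
  ⟨L.r_symm h.1, by rw [← h.2]; abel⟩

theorem N.trans {x y w : W} {z z' : Z} (h : L.N x y z) (h' : L.N y w z') : L.N x w (z + z') :=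
  ⟨L.r_trans h.1 h'.1, by rw [← h.2, ← h'.2]; abel⟩

theorem N.mul {x x' y y' : W} {z w : Z} (h : L.N x x' z) (h' : L.N y y' w) :
    L.N (x * y) (x' * y') (z + w) :=
  ⟨L.r_mul h.1 h'.1, by rw [L.ψ_mul h.1 h'.1, h.2, h'.2]⟩

theorem N.ld {x x' y y' : W} {z w : Z} (h : L.N x x' z) (h' : L.N y y' w) :
    L.N (ld x y) (ld x' y') (w - z) := by
  refine ⟨L.r_ld h.1 h'.1, ?_⟩
  have := L.ψ_mul h.1 (L.r_ld h.1 h'.1)
  rw [mul_ld, mul_ld, h.2, h'.2] at this
  rw [this]; abel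

theorem N.rd {x x' y y' : W} {z w : Z} (h : L.N x x' z) (h' : L.N y y' w) :
    L.N (rd x y) (rd x' y') (z - w) := by
  refine ⟨L.r_rd h.1 h'.1, ?_⟩
  have := L.ψ_mul (L.r_rd h.1 h'.1) h'.1
  rw [rd_mul, rd_mul, h.2, h'.2] at this
  rw [this]; abel

theorem N.cast {x y : W} {z w : Z} (h : L.N x y z) (e : z = w) : L.N x y w := e ▸ h

theorem N.jj {z z' : W} {w : Z} (c : W) (h : L.N z z' w) : L.N (jj c z) (jj c z') (-w) :=
  (((N.refl c).rd h).mul (N.refl c)).cast (by abel)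

theorem r_of_jj {c z z' : W} (h : L.r (jj c z) (jj c z')) : L.r z z' := by
  have h1 := L.r_rd h (L.r_refl c)
  simp only [Nil.jj, mul_rd] at h1
  have h2 := L.r_ld h1 (L.r_refl c)
  rwa [ld_rd, ld_rd] at h2

variable (L)

theorem π_one : L.π 1 = 0 := by
  have := L.π_mul 1 1
  rw [one_mul] at this
  exact left_eq_add.1 this

theorem π_ld (x y : W) : L.π (ld x y) = L.π y - L.π x := by
  have := L.π_mul x (ld x y)
  rw [mul_ld] at this
  rw [this]; abel

theorem π_rd (x y : W) : L.π (rd x y) = L.π x - L.π y := by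
  have := L.π_mul (rd x y) y
  rw [rd_mul] at this
  rw [this]; abel

/-- The middle Bol defect. -/
def Φ (c x y : W) : Z := L.ψ (rd c y * ld x c) - L.ψ (jj c (x * y))

/-- The universal flexibility defect. -/
def U (b a u t : W) : Z := L.ψ (PP b a u t) - L.ψ (PQ b a u t)

def MB : Prop := ∀ c x y : W, L.r (rd c y * ld x c) (jj c (x * y))

variable {L}

theorem MB.n (h : L.MB) (c x y : W) : L.N (rd c y * ld x c) (jj c (x * y)) (L.Φ c x y) :=
  ⟨h c x y, rfl⟩

theorem MB.stepA (h : L.MB) {c a x s : W} {z : Z} (v : W) (hs : L.N s (jj c (x * a)) z) :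
    L.N (opA (rd c a) (rd c v) s) (jj c (x * v)) (z + L.Φ c x v - L.Φ c x a) := by
  have h1 := (N.refl (rd c a)).ld (hs.trans (h.n c x a).symm)
  rw [ld_mul] at h1
  exact (((N.refl (rd c v)).mul h1).trans (h.n c x v)).cast (by abel)

theorem MB.stepB (h : L.MB) {c b y s u w : W} {z ρ : Z} (hw : L.N w (ld u c) ρ)
    (hs : L.N s (jj c (b * y)) z) :
    L.N (opB (ld b c) w s) (jj c (u * y)) (z + ρ + L.Φ c u y - L.Φ c b y) := by
  have h1 := (hs.trans (h.n c b y).symm).rd (N.refl (ld b c))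
  rw [mul_rd] at h1
  exact ((h1.mul hw).trans (h.n c u y)).cast (by abel)

theorem MB.refl_pair (h : L.MB) (c b a u t : W) : ∃ ρ : Z,
    L.N (PP (rd c a) (ld b c) (rd c (vv b a u)) (jj c t)) (jj c (PQ b a u t))
      (ρ + L.Φ c u (ld b t) - L.Φ c b (ld b t) + L.Φ c (rd (opA b u t) a) (vv b a u) -
        L.Φ c (rd (opA b u t) a) a) ∧
    L.N (PQ (rd c a) (ld b c) (rd c (vv b a u)) (jj c t)) (jj c (PP b a u t))
      (L.Φ c (rd t a) (vv b a u) - L.Φ c (rd t a) a + ρ +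
        L.Φ c u (ld b (opB a (vv b a u) t)) - L.Φ c b (ld b (opB a (vv b a u) t))) := by
  have hv : L.N (vv (rd c a) (ld b c) (rd c (vv b a u))) (ld u c)
      (L.Φ c b (vv b a u) - L.Φ c u a) := by
    have h1 := h.n c b (vv b a u)
    rw [mul_vv] at h1
    have h2 := (N.refl (rd c a)).ld (h1.trans (h.n c u a).symm)
    rw [ld_mul] at h2
    exact h2.cast (by abel)
  refine ⟨L.Φ c b (vv b a u) - L.Φ c u a, ?_, ?_⟩
  · have h0 : L.N (jj c t) (jj c (b * ld b t)) 0 := by rw [mul_ld]; exact N.refl _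
    have h1 := h.stepB hv h0
    have e : u * ld b t = rd (opA b u t) a * a := by rw [rd_mul]; rfl
    rw [e] at h1
    exact (h.stepA (vv b a u) h1).cast (by abel)
  · have h0 : L.N (jj c t) (jj c (rd t a * a)) 0 := by rw [rd_mul]; exact N.refl _
    have h1 := h.stepA (vv b a u) h0
    have e : rd t a * vv b a u = b * ld b (opB a (vv b a u) t) := by rw [mul_ld]; rfl
    rw [e] at h1
    exact (h.stepB hv h1).cast (by abel)

theorem MB.r_PP (h : L.MB) (hS : SUF W) (b a u t : W) : L.r (PP b a u t) (PQ b a u t) := by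
  obtain ⟨ρ, h1, h2⟩ := h.refl_pair b b a u t
  rw [ld_self] at h1 h2
  rw [hS.2] at h1
  exact r_of_jj (L.r_trans (L.r_symm h2.1) h1.1)

theorem MB.U_swap (h : L.MB) (hS : SUF W) (b a u t : W) :
    L.U u (vv b a u) b (PP b a u t) = L.U b a u t := by
  have e : vv u (vv b a u) b = a := by rw [vv, mul_vv, ld_mul]
  have n0 : L.N (PP b a u t) (PQ b a u t) (L.U b a u t) := ⟨h.r_PP hS b a u t, rfl⟩
  have n1 := (N.refl b).mul ((N.refl u).ld ((n0.rd (N.refl (vv b a u))).mul (N.refl a)))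
  have e1 : b * ld u (rd (PQ b a u t) (vv b a u) * a) = t := by
    simp only [PQ, opA, opB, mul_rd, rd_mul, ld_mul, mul_ld]
  have e2 : PQ u (vv b a u) b (PP b a u t) = t := by
    rw [PQ, e]
    simp only [PP, opA, opB, mul_rd, rd_mul, ld_mul, mul_ld]
  rw [e1] at n1
  have e3 : PP u (vv b a u) b (PP b a u t) =
      b * ld u (rd (PP b a u t) (vv b a u) * a) := by rw [PP, e]; rfl
  rw [U, e2, e3, n1.2]
  abel

theorem step (hS : SUF W) (h : L.MB) (Δ : A → A → A → Z)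
    (hΔ : ∀ c x y, L.Φ c x y = Δ (L.π c) (L.π x) (L.π y)) : Hyp Δ := by
  have hR : ∀ c b a u t : W, L.U (rd c a) (ld b c) (rd c (vv b a u)) (jj c t) =
      L.U b a u t + Hd (Δ (L.π c)) (L.π u - L.π b) (L.π t - L.π a) (L.π a) -
        Hd (Δ (L.π c)) (L.π u - L.π b) (L.π b) (L.π t - L.π b) := by
    intro c b a u t
    obtain ⟨ρ, h1, h3⟩ := h.refl_pair c b a u t
    have n0 : L.N (PP b a u t) (PQ b a u t) (L.U b a u t) := ⟨h.r_PP hS b a u t, rfl⟩
    have n1 := (h1.trans (n0.jj c).symm).trans h3.symm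
    have e1 : L.π (vv b a u) = L.π a + (L.π u - L.π b) := by
      rw [vv, π_ld, L.π_mul]; abel
    have e2 : L.π (rd (opA b u t) a) = L.π t - L.π a + (L.π u - L.π b) := by
      rw [opA, π_rd, L.π_mul, π_ld]; abel
    have e3 : L.π (ld b (opB a (vv b a u) t)) = L.π t - L.π b + (L.π u - L.π b) := by
      rw [opB, π_ld, L.π_mul, π_rd, e1]; abel
    have e4 : L.π b + (L.π u - L.π b) = L.π u := by abel
    rw [U, n1.2]
    simp only [hΔ, e1, e2, e3, Hd, e4, π_ld L b t, π_rd L t a]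
    abel
  have hU : ∀ b a u t : W, L.U b a u t = EE Δ (L.π b) (L.π a) (L.π u - L.π b) (L.π t) := by
    intro b a u t
    have := hR b b a u t
    rw [ld_self, U, hS.2, sub_self] at this
    simp only [EE]
    rw [← sub_eq_zero, this]
    abel
  have rep : ∀ b g : A, ∃ b' u' : W, b = L.π b' ∧ g = L.π u' - L.π b' := by
    intro b g
    obtain ⟨b', rfl⟩ := L.π_surj b
    obtain ⟨u', hu⟩ := L.π_surj (L.π b' + g)
    exact ⟨b', u', rfl, by rw [hu]; abel⟩
  have πv : ∀ b a u : W, L.π (vv b a u) = L.π a + (L.π u - L.π b) := fun b a u => by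
    rw [vv, π_ld, L.π_mul]; abel
  refine ⟨?_, ?_, ?_, ?_, ?_, ?_, ?_⟩
  · intro c b a g t
    obtain ⟨b, u, rfl, rfl⟩ := rep b g
    obtain ⟨c, rfl⟩ := L.π_surj c
    obtain ⟨a, rfl⟩ := L.π_surj a
    obtain ⟨t, rfl⟩ := L.π_surj t
    rw [← hU, ← hR, hU, π_rd, π_ld, π_rd, πv, jj, L.π_mul, π_rd]
    congr 1 <;> abel
  · intro b a g t
    obtain ⟨b, u, rfl, rfl⟩ := rep b g
    obtain ⟨a, rfl⟩ := L.π_surj a
    obtain ⟨t, rfl⟩ := L.π_surj t
    rw [← hU, ← h.U_swap hS, hU, πv, PP, opA, opB, L.π_mul, π_ld, L.π_mul, π_rd, πv]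
    congr 1 <;> abel
  · intro a g t
    obtain ⟨u, rfl⟩ := L.π_surj g
    obtain ⟨a, rfl⟩ := L.π_surj a
    obtain ⟨t, rfl⟩ := L.π_surj t
    have := hU 1 a u t
    rw [π_one, sub_zero, U, hS.1, sub_self] at this
    exact this.symm
  · intro b g t
    obtain ⟨b, u, rfl, rfl⟩ := rep b g
    obtain ⟨t, rfl⟩ := L.π_surj t
    have := hU b 1 u t
    rw [π_one, U, hS.2, sub_self] at this
    exact this.symm
  · intro c x
    obtain ⟨c, rfl⟩ := L.π_surj c
    obtain ⟨x, rfl⟩ := L.π_surj x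
    rw [← π_ld, ← hΔ, Φ, rd_mul, mul_ld, jj, rd_mul, sub_self]
  · intro c y
    obtain ⟨c, rfl⟩ := L.π_surj c
    obtain ⟨y, rfl⟩ := L.π_surj y
    rw [← L.π_one, ← hΔ, Φ, one_ld, one_mul, jj, sub_self]
  · intro c x y
    obtain ⟨c, rfl⟩ := L.π_surj c
    obtain ⟨x, rfl⟩ := L.π_surj x
    obtain ⟨y, rfl⟩ := L.π_surj y
    have key : ∀ x y : W, L.Φ c (rd c y) (ld x c) =
        L.ψ (x * y) - L.ψ (jj c (jj c (x * y))) + L.Φ c x y := by
      intro x y
      have n1 := ((h.n c x y).jj c).2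
      rw [Φ, rd_ld, ld_rd, eq_add_of_sub_eq n1]
      abel
    have k0 : L.Φ c 1 (x * y) = 0 := by rw [Φ, one_ld, one_mul, jj, sub_self]
    have k1 := key 1 (x * y)
    rw [k0, one_mul, one_ld, add_zero, hΔ, π_rd, L.π_mul] at k1
    have k2 := key x y
    rw [hΔ, hΔ, π_rd, π_ld] at k2
    rw [k1, k2]
    abel

end Layer

end Pool.Agent.Lib.MP_ca1f03_al.Nil
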