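import Pool.Agent.Lib.MP_ca1f03_al.Nil.Layer

namespace Pool.Agent.Lib.MP_ca1f03_al.Nil

open Lp

/-- Central elements of a loop. -/
def Central {Q : Type*} [Mul Q] (z : Q) : Prop :=
  ∀ x y : Q, z * x = x * z ∧ (z * x) * y = z * (x * y) ∧ (x * z) * y = x * (z * y) ∧
    (x * y) * z = x * (y * z)

namespace Layer
variable {Q : Type*} [Lp Q] {A Z : Type*} [AddCommGroup A] [AddCommGroup Z] {L : Layer Q A Z}

theorem N.of_r {x y : Q} (h : L.r x y) : L.N x y (L.ψ x - L.ψ y) := ⟨h, rfl⟩

theorem N.uniq {x y : Q} {c d : Z} (h : L.N x y c) (h' : L.N x y d) : c = d := h.2.symm.trans h'.2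

/-- Maps compatible with the layer. -/
def Pres (L : Layer Q A Z) (g : Q → Q) : Prop := ∀ ⦃x y c⦄, L.N x y c → L.N (g x) (g y) c

theorem Pres.iter {g : Q → Q} (h : L.Pres g) (n : ℕ) : L.Pres g^[n] := by
  induction n with
  | zero => exact fun _ _ _ h => h
  | succ n ih => exact fun _ _ _ hx => ih (h hx)

theorem Pres.r {g : Q → Q} (h : L.Pres g) {x y : Q} (hxy : L.r x y) : L.r (g x) (g y) :=
  (h (N.of_r hxy)).1

theorem pres_mul_left (u : Q) : L.Pres fun x => u * x :=
  fun _ _ _ h => ((N.refl u).mul h).cast (zero_add _)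

theorem pres_mul_right (u : Q) : L.Pres fun x => x * u :=
  fun _ _ _ h => (h.mul (N.refl u)).cast (add_zero _)

theorem pres_opA (b u : Q) : L.Pres (opA b u) :=
  fun _ _ _ h => ((N.refl u).mul ((N.refl b).ld h)).cast (by abel)

theorem pres_opB (a v : Q) : L.Pres (opB a v) :=
  fun _ _ _ h => ((h.rd (N.refl a)).mul (N.refl v)).cast (by abel)

theorem Pres.pow {g : Q → Q} (h : L.Pres g) (hr : ∀ x, L.r (g x) x) (n : ℕ) (x : Q) :
    L.N (g^[n] x) x (n • (L.ψ (g x) - L.ψ x)) := by
  induction n with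
  | zero => exact (N.refl x).cast (zero_nsmul _).symm
  | succ n ih =>
    rw [Function.iterate_succ_apply', succ_nsmul]
    exact (h ih).trans (N.of_r (hr x))

theorem lift (hsep : ∀ x y, L.N x y 0 → x = y) {p q : ℕ} (hp : ∀ c : Z, p • c = 0)
    (hpq : Nat.Coprime p q) (hS : SUF Q) (z : Q)
    (c1 : ∀ x, L.r (x * z) (z * x)) (c2 : ∀ x y, L.r ((z * x) * y) (z * (x * y)))
    (c3 : ∀ x y, L.r (x * (z * y)) (z * (x * y)))
    (hq : ∀ x, L.r ((fun x => z * x)^[q] x) x) :
    ∃ s : Q, Central s ∧ L.r s z ∧ (fun x => s * x)^[q] = id := by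
  have hqz : ∀ c : Z, q • c = 0 → c = 0 := by
    intro c hc
    have h1 := addOrderOf_dvd_of_nsmul_eq_zero hc
    have h2 := addOrderOf_dvd_of_nsmul_eq_zero (hp c)
    exact AddMonoid.addOrderOf_eq_one_iff.1 (Nat.eq_one_of_dvd_coprimes hpq h2 h1)
  have powp : ∀ g : Q → Q, L.Pres g → (∀ x, L.r (g x) x) → ∀ m, g^[p * m] = id := by
    intro g hg hr m
    funext x
    exact hsep _ _ ((hg.pow hr (p * m) x).cast (by rw [mul_nsmul, hp, nsmul_zero]))
  obtain ⟨e, he1, he2⟩ := Nat.chineseRemainder hpq 0 1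
  obtain ⟨m, rfl⟩ : ∃ m, e = p * m := (Nat.modEq_zero_iff_dvd.1 he1)
  set T : Q → Q := fun x => z * x with hT
  have pT : L.Pres T := pres_mul_left z
  have hmod : ∀ i j, i ≡ j [MOD q] → ∀ x, L.r (T^[i] x) (T^[j] x) := by
    have h0 : ∀ i x, L.r (T^[i] x) (T^[i % q] x) := by
      intro i x
      conv_lhs => rw [← Nat.mod_add_div i q, Function.iterate_add_apply, Function.iterate_mul]
      exact (pT.iter _).r ((pT.iter q).pow hq (i / q) x).1
    intro i j hij x
    have h1 := h0 i x
    rw [show i % q = j % q from hij] at h1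
    exact L.r_trans h1 (L.r_symm (h0 j x))
  obtain ⟨S, hSdef⟩ : ∃ S, S = T^[p * m] := ⟨_, rfl⟩
  have pS : L.Pres S := hSdef ▸ pT.iter _
  have ST : ∀ x, L.r (S x) (z * x) := fun x => hSdef ▸ hmod _ 1 he2 x
  have Sq : S^[q] = id := by
    rw [hSdef, ← Function.iterate_mul, mul_comm, Function.iterate_mul]
    exact powp _ (pT.iter q) hq m
  have s1 : ∀ u a t : Q, u * opB a (u * a) t = opB a (u * a) (u * t) := by
    intro u a t
    simpa only [PP, PQ, opA, vv, one_ld] using hS.1 a u t
  have s2 : ∀ b t : Q, opA b (b * z) (t * z) = opA b (b * z) t * z := by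
    intro b t
    simpa only [PP, PQ, opB, vv, rd_one, mul_one, ld_mul] using hS.2 b (b * z) t
  have SR : S = (fun x => x * z)^[p * m] := by
    have flex : ∀ t : Q, z * (t * z) = (z * t) * z := fun t => by
      simpa only [opB, mul_one, rd_one] using s1 z 1 t
    have hc : Function.Commute T fun x => ld z (x * z) := fun x => by
      simp only [hT, mul_ld, ← flex, ld_mul]
    have e1 : (fun x => x * z) = T ∘ fun x => ld z (x * z) := by
      funext x
      simp only [hT, Function.comp, mul_ld]
    have hk := powp (fun x => ld z (x * z))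
      (fun _ _ _ h => ((N.refl z).ld (h.mul (N.refl z))).cast (by abel))
      (fun x => by
        have := L.r_ld (L.r_refl z) (c1 x)
        rwa [ld_mul] at this) m
    rw [e1, hc.comp_iterate, hk, hSdef]
    rfl
  have cB : ∀ a t, S (opB a (z * a) t) = opB a (z * a) (S t) := fun a t => by
    have hc : Function.Commute T (opB a (z * a)) := fun t => s1 z a t
    rw [hSdef]
    exact hc.iterate_left _ t
  have cA : ∀ b t, S (opA b (b * z) t) = opA b (b * z) (S t) := fun b t => by
    have hc : Function.Commute (fun x => x * z) (opA b (b * z)) := fun t => (s2 b t).symm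
    rw [SR]
    exact hc.iterate_left _ t
  have rl : ∀ u y, L.r (u * S y) (S (u * y)) := fun u y =>
    L.r_trans (L.r_mul (L.r_refl u) (ST y)) (L.r_trans (c3 u y) (L.r_symm (ST _)))
  have rr : ∀ x a, L.r (S x * a) (S (x * a)) := fun x a =>
    L.r_trans (L.r_mul (ST x) (L.r_refl a)) (L.r_trans (c2 x a) (L.r_symm (ST _)))
  obtain ⟨lam, hl⟩ : ∃ lam : Q → Q → Z, ∀ u y, L.N (u * S y) (S (u * y)) (lam u y) :=
    ⟨_, fun u y => N.of_r (rl u y)⟩
  obtain ⟨rho, hr⟩ : ∃ rho : Q → Q → Z, ∀ x a, L.N (S x * a) (S (x * a)) (rho x a) :=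
    ⟨_, fun x a => N.of_r (rr x a)⟩
  have il : ∀ {u u' y y'}, L.r u u' → L.r y y' → lam u y = lam u' y' := by
    intro u u' y y' h1 h2
    have n1 := N.of_r h1
    have n2 := N.of_r h2
    exact (hl u y).uniq ((((n1.mul (pS n2)).trans (hl u' y')).trans
      (pS (n1.mul n2)).symm).cast (by abel))
  have ir : ∀ {u u' y y'}, L.r u u' → L.r y y' → rho u y = rho u' y' := by
    intro u u' y y' h1 h2
    have n1 := N.of_r h1
    have n2 := N.of_r h2
    exact (hr u y).uniq (((((pS n1).mul n2).trans (hr u' y')).trans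
      (pS (n1.mul n2)).symm).cast (by abel))
  have zr : ∀ x a, rho x (z * a) = rho x a := by
    intro x a
    have := pres_opB a (z * a) (hr x a)
    rw [← cB] at this
    simp only [opB, mul_rd] at this
    exact (hr x (z * a)).uniq this
  have zl : ∀ b y, lam (b * z) y = lam b y := by
    intro b y
    have := pres_opA b (b * z) (hl b y)
    rw [← cA] at this
    simp only [opA, ld_mul] at this
    exact (hl (b * z) y).uniq this
  have suml : ∀ u y, ∑ i ∈ Finset.range q, lam u (S^[i] y) = 0 := by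
    intro u y
    have : ∀ j, L.N (u * S^[j] y) (S^[j] (u * y)) (∑ i ∈ Finset.range j, lam u (S^[i] y)) := by
      intro j
      induction j with
      | zero => exact N.refl _
      | succ j ih =>
        rw [Function.iterate_succ_apply', Function.iterate_succ_apply', Finset.sum_range_succ]
        exact ((hl u _).trans (pS ih)).cast (add_comm _ _)
    have h := this q
    rw [Sq] at h
    exact h.uniq (N.refl _)
  have sumr : ∀ x a, ∑ i ∈ Finset.range q, rho (S^[i] x) a = 0 := by
    intro x a
    have : ∀ j, L.N (S^[j] x * a) (S^[j] (x * a)) (∑ i ∈ Finset.range j, rho (S^[i] x) a) := by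
      intro j
      induction j with
      | zero => exact N.refl _
      | succ j ih =>
        rw [Function.iterate_succ_apply', Function.iterate_succ_apply', Finset.sum_range_succ]
        exact ((hr _ a).trans (pS ih)).cast (add_comm _ _)
    have h := this q
    rw [Sq] at h
    exact h.uniq (N.refl _)
  have hβ : ∀ a v t, L.N (opB a v (S t)) (S (opB a v t)) (rho (rd t a) v - rho (rd t a) a) := by
    intro a v t
    have h1 := (hr (rd t a) a).symm.rd (N.refl a)
    rw [rd_mul, mul_rd] at h1
    exact ((h1.mul (N.refl v)).trans (hr (rd t a) v)).cast (by abel)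
  have star : ∀ u a x, lam u (x * (u * a)) - lam u (x * a) =
      (rho (rd (u * (x * a)) a) (u * a) - rho (rd (u * (x * a)) a) a) -
        (rho x (u * a) - rho x a) := by
    intro u a x
    have h1 := (pres_mul_left u (hβ a (u * a) (x * a))).trans (hl u _)
    have h2 := (pres_opB a (u * a) (hl u (x * a))).trans (hβ a (u * a) (u * (x * a)))
    beta_reduce at h1
    rw [s1, s1] at h1
    have h3 := h1.uniq h2
    simp only [opB, mul_rd] at h3
    rw [← sub_eq_zero, ← sub_eq_zero.2 h3]
    abel
  have avg : ∀ (f : Q → Z) (x : Q), (∀ i, f (S^[i] x) = f x) →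
      ∑ i ∈ Finset.range q, f (S^[i] x) = 0 → f x = 0 := by
    intro f x h1 h2
    rw [Finset.sum_congr rfl fun i _ => h1 i, Finset.sum_const, Finset.card_range] at h2
    exact hqz _ h2
  have inv : ∀ f : Q → Z, (∀ x, f (S x) = f x) → ∀ x i, f (S^[i] x) = f x := by
    intro f hf x i
    induction i with
    | zero => rfl
    | succ i ih => rw [Function.iterate_succ_apply', hf, ih]
  have rli : ∀ u y i, L.r (u * S^[i] y) (S^[i] (u * y)) := by
    intro u y i
    induction i with
    | zero => exact L.r_refl _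
    | succ i ih =>
      rw [Function.iterate_succ_apply', Function.iterate_succ_apply']
      exact L.r_trans (rl _ _) (pS.r ih)
  have d0 : ∀ u x a, lam u (x * (u * a)) - lam u (x * a) = 0 := by
    intro u x a
    refine avg (fun a => lam u (x * (u * a)) - lam u (x * a)) a
      (inv (fun a => lam u (x * (u * a)) - lam u (x * a)) (fun a => ?_) a) ?_
    · have e1 : L.r (u * S a) (z * (u * a)) := L.r_trans (rl u a) (ST _)
      have e2 : L.r (rd (u * (x * S a)) (S a)) (rd (u * (x * a)) a) := by
        have f1 : L.r (u * (x * S a)) (rd (u * (x * a)) a * S a) := by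
          refine L.r_trans (L.r_mul (L.r_refl u) (rl x a)) (L.r_trans (rl u _) (L.r_symm ?_))
          have := rl (rd (u * (x * a)) a) a
          rwa [rd_mul] at this
        have := L.r_rd f1 (L.r_refl (S a))
        rwa [mul_rd] at this
      rw [star, star, ir e2 e1, ir e2 (ST a), ir (L.r_refl x) e1, ir (L.r_refl x) (ST a), zr, zr,
        zr, zr]
    · rw [Finset.sum_sub_distrib, Finset.sum_congr rfl fun i _ => il (L.r_refl u)
        (L.r_trans (L.r_mul (L.r_refl x) (rli u a i)) (rli x _ i)),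
        Finset.sum_congr rfl fun i _ => il (L.r_refl u) (rli x a i), suml, suml, sub_self]
  have uz : ∀ u a, L.r ((u * z) * a) (S (u * a)) := fun u a =>
    L.r_trans (L.r_mul (c1 u) (L.r_refl a)) (L.r_trans (c2 u a) (L.r_symm (ST _)))
  have l0 : ∀ u y, lam u y = 0 := by
    intro u y
    refine avg (lam u) y (inv _ (fun y => ?_) y) (suml u y)
    have h1 := d0 u 1 (ld u y)
    have h2 := d0 (u * z) 1 (ld u y)
    rw [zl, zl, one_mul, il (L.r_refl u) (uz u _)] at h2
    rw [one_mul, mul_ld] at h1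
    rw [mul_ld] at h2
    exact (sub_eq_zero.1 h2).trans (sub_eq_zero.1 h1).symm
  have r1 : ∀ x, rho x 1 = 0 := fun x => by
    have := hr x 1
    rw [mul_one, mul_one] at this
    exact this.uniq (N.refl _)
  have r0 : ∀ x v, rho x v = 0 := by
    intro x v
    refine avg (fun x => rho x v) x (inv (fun x => rho x v) (fun x => ?_) x) (sumr x v)
    have h1 := star v 1 (ld v x)
    have h2 := star (v * z) 1 (ld v x)
    simp only [l0, r1, mul_one, rd_one, sub_zero, mul_ld] at h1 h2
    rw [ir (uz v _) (c1 v), ir (L.r_refl _) (c1 v), zr, zr, mul_ld] at h2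
    exact (sub_eq_zero.1 h2.symm).trans (sub_eq_zero.1 h1.symm).symm
  have eL : ∀ u y, u * S y = S (u * y) := fun u y => hsep _ _ ((hl u y).cast (l0 u y))
  have eR : ∀ x a, S x * a = S (x * a) := fun x a => hsep _ _ ((hr x a).cast (r0 x a))
  have f1 : ∀ x, S 1 * x = S x := fun x => by rw [eR, one_mul]
  have f2 : ∀ x, x * S 1 = S x := fun x => by rw [eL, mul_one]
  refine ⟨S 1, fun x y => ⟨?_, ?_, ?_, ?_⟩, ?_, ?_⟩
  · rw [f1, f2]
  · rw [f1, f1, eR]
  · rw [f1, f2, eR, eL]
  · rw [f2, f2, eL]
  · have := ST 1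
    rwa [mul_one] at this
  · rw [← Sq]
    congr 1
    exact funext f1

end Layer

end Pool.Agent.Lib.MP_ca1f03_al.Nil
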