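import Pool.Agent.Lib.MP_ca1f03_al.Nil.Sep

namespace Pool.Agent.Lib.MP_ca1f03_al.Nil

open Lp

universe u

theorem exists_prime_central {Q : Type*} [Lp Q] [Finite Q] [Nontrivial Q] (h : Nilp Q) :
    ∃ (p : ℕ) (z : Cen Q), p.Prime ∧ orderOf z = p := by
  obtain ⟨z, hz⟩ := h.exists_central
  have : Nontrivial (Cen Q) := ⟨z, 1, hz⟩
  obtain ⟨p, hp, hd⟩ := Nat.exists_prime_and_dvd (Finite.one_lt_card (α := Cen Q)).ne'
  have := Fact.mk hp
  obtain ⟨w, hw⟩ := exists_prime_orderOf_dvd_card' p hd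
  exact ⟨p, w, hp, hw⟩

theorem card_quot {Q : Type*} [Lp Q] (z : Cen Q) :
    Nat.card Q = Nat.card (QQ (Subgroup.zpowers z)) * orderOf z := by
  rw [QQ.card (Subgroup.zpowers z), Nat.card_zpowers]

theorem card_quot_lt {Q : Type*} [Lp Q] [Finite Q] {z : Cen Q} {p : ℕ} (hp : p.Prime)
    (hz : orderOf z = p) : Nat.card (QQ (Subgroup.zpowers z)) < Nat.card Q := by
  have : Nonempty (QQ (Subgroup.zpowers z)) := ⟨1⟩
  rw [card_quot z, hz]
  exact lt_mul_of_one_lt_right Nat.card_pos hp.one_lt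

theorem cauchy_central (n : ℕ) : ∀ (Q : Type u) [Lp Q] [Finite Q], Nat.card Q = n → Nilp Q →
    SUF Q → ∀ q : ℕ, q.Prime → q ∣ n → ∃ s : Cen Q, orderOf s = q := by
  induction n using Nat.strong_induction_on with
  | _ n ih =>
    intro Q _ _ hn hN hS q hq hd
    have : Nonempty Q := ⟨1⟩
    have : Nontrivial Q := Finite.one_lt_card_iff_nontrivial.1
      (lt_of_lt_of_le hq.one_lt (Nat.le_of_dvd Nat.card_pos (hn ▸ hd)))
    obtain ⟨p, z, hp, hz⟩ := exists_prime_central hN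
    by_cases hpq : p = q
    · exact ⟨z, hz.trans hpq⟩
    have hc : Nat.Coprime p q := (Nat.coprime_primes hp hq).2 hpq
    have hd' : q ∣ Nat.card (QQ (Subgroup.zpowers z)) := by
      rw [← hn, card_quot z, hz] at hd
      exact hc.symm.dvd_of_dvd_mul_right hd
    obtain ⟨s, hs⟩ := ih _ (hn ▸ card_quot_lt hp hz) (QQ (Subgroup.zpowers z)) rfl (QQ.nilp _ hN)
      (QQ.suf _ hS) q hq hd'
    obtain ⟨t, h1, h2⟩ := lift_central (Subgroup.zpowers z) (p := p) (fun c => by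
      rw [← hz, ← Nat.card_zpowers]; exact pow_card_eq_one') hc hS s (hs ▸ pow_orderOf_eq_one s)
    have := Fact.mk hq
    refine ⟨t, orderOf_eq_prime h2 ?_⟩
    rintro rfl
    have : s = 1 := Subtype.ext h1.symm
    rw [this, orderOf_one] at hs
    exact hq.one_lt.ne hs

theorem unip {k : Type*} [CommRing k] {p : ℕ} (hk : (p : k) = 0) (n : ℕ) :
    ∀ (Q : Type u) [Lp Q] [Finite Q], Nat.card Q = n → Nilp Q →
      (∀ q : ℕ, q.Prime → q ∣ n → q = p) → ∃ N, ∀ v, v ∈ UU k Q N := by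
  induction n using Nat.strong_induction_on with
  | _ n ih =>
    intro Q _ _ hn hN hq
    rcases subsingleton_or_nontrivial Q with hQ | hQ
    · refine ⟨1, fun v => mem_UU.2 fun q => ?_⟩
      have e : bas k q = 1 := by rw [Subsingleton.elim q 1]; rfl
      rw [e, one_mul, mul_one, sub_self]
      exact ⟨zero_mem _, zero_mem _⟩
    obtain ⟨p', z, hp, hz⟩ := exists_prime_central hN
    have e := card_quot z
    rw [hz, hn] at e
    obtain rfl : p' = p := hq p' hp (e ▸ Dvd.intro_left _ rfl)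
    obtain ⟨N, hU⟩ := ih _ (hn ▸ card_quot_lt hp hz) (QQ (Subgroup.zpowers z)) rfl (QQ.nilp _ hN)
      fun q h1 h2 => hq q h1 (e ▸ h2.mul_right _)
    exact ⟨_, UU_step hp hk z (hz ▸ pow_orderOf_eq_one z) hU⟩

theorem MB_fin (n : ℕ) : ∀ (Q : Type u) [Lp Q] [Finite Q], Nat.card Q = n → Odd n → Nilp Q →
    SUF Q → ∀ c x y : Q, rd c y * ld x c = jj c (x * y) := by
  induction n using Nat.strong_induction_on with
  | _ n ih =>
    intro Q _ _ hn ho hN hS c x y
    by_cases h2 : ∃ p q : ℕ, p.Prime ∧ q.Prime ∧ p ∣ n ∧ q ∣ n ∧ p ≠ q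
    · obtain ⟨p, q, hp, hq, dp, dq, hpq⟩ := h2
      obtain ⟨s, hs⟩ := cauchy_central n Q hn hN hS p hp dp
      obtain ⟨t, ht⟩ := cauchy_central n Q hn hN hS q hq dq
      have key : ∀ (r : ℕ) (z : Cen Q), r.Prime → orderOf z = r →
          ∃ g : Subgroup.zpowers z, g • jj c (x * y) = rd c y * ld x c := by
        intro r z hr hz
        refine (QQ.eq _).1 (ih _ (hn ▸ card_quot_lt hr hz) (QQ (Subgroup.zpowers z)) rfl ?_
          (QQ.nilp _ hN) (QQ.suf _ hS) (QQ.mk _ c) (QQ.mk _ x) (QQ.mk _ y))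
        rw [← hn, card_quot z] at ho
        exact (Nat.odd_mul.1 ho).1
      obtain ⟨g, hg⟩ := key p s hp hs
      obtain ⟨h, hh⟩ := key q t hq ht
      have e : (g : Cen Q) = h := Subtype.ext (rcan (hg.trans hh.symm))
      have d1 : orderOf (g : Cen Q) ∣ p := hs ▸ orderOf_dvd_of_mem_zpowers g.2
      have d2 : orderOf (g : Cen Q) ∣ q := e ▸ ht ▸ orderOf_dvd_of_mem_zpowers h.2
      have e1 : (g : Cen Q) = 1 :=
        orderOf_eq_one_iff.1 (Nat.eq_one_of_dvd_coprimes ((Nat.coprime_primes hp hq).2 hpq) d1 d2)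
      rw [← hg, show g = 1 from Subtype.ext e1, one_smul]
    · obtain ⟨p, hp, hpo, hall⟩ : ∃ p : ℕ, p.Prime ∧ Odd p ∧ ∀ q : ℕ, q.Prime → q ∣ n → q = p := by
        by_cases h1 : ∃ p : ℕ, p.Prime ∧ p ∣ n
        · obtain ⟨p, hp, hd⟩ := h1
          refine ⟨p, hp, ho.of_dvd_nat hd, fun q hq hd' => ?_⟩
          by_contra hne
          exact h2 ⟨q, p, hq, hp, hd', hd, hne⟩
        · exact ⟨3, Nat.prime_three, ⟨1, rfl⟩, fun q hq hd => (h1 ⟨q, hq, hd⟩).elim⟩
      have := Fact.mk hp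
      obtain ⟨N, hU⟩ := unip (ZMod.natCast_self p) n Q hn hN hall
      obtain ⟨m, hm⟩ := hpo
      have he : ((m + 1 : ℕ) : ZMod p) * 2 = 1 := by
        have h0 : ((2 * m + 1 : ℕ) : ZMod p) = 0 := by rw [← hm]; exact ZMod.natCast_self p
        push_cast at h0 ⊢
        linear_combination h0
      have := FF_bot hU (MB_mod (ZMod p) _ he hS (2 ^ N) c x y)
      exact MonoidAlgebra.single_left_injective one_ne_zero (sub_eq_zero.1 this)

end Pool.Agent.Lib.MP_ca1f03_al.Nil
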