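import Pool.Agent.Lib.MP_ca1f03_al.Nil.Lift

namespace Pool.Agent.Lib.MP_ca1f03_al.Nil

open Lp

variable {Q : Type*} [Lp Q]

theorem lcan {a x y : Q} (h : a * x = a * y) : x = y := by rw [← ld_mul a x, h, ld_mul]

theorem rcan {a x y : Q} (h : x * a = y * a) : x = y := by rw [← mul_rd x a, h, mul_rd]

theorem central_iff {z : Q} : Central z ↔
    (∀ x, x * z = z * x) ∧ (∀ x y, (z * x) * y = z * (x * y)) ∧
      ∀ x y, x * (z * y) = z * (x * y) := by
  constructor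
  · intro h
    refine ⟨fun x => (h x x).1.symm, fun x y => (h x y).2.1, fun x y => ?_⟩
    rw [← (h x y).2.2.1, ← (h x y).1, (h x y).2.1]
  · rintro ⟨h1, h2, h3⟩ x y
    exact ⟨(h1 x).symm, h2 x y, by rw [h1, h2, h3], by rw [h1, h1, h3]⟩

/-- The centre of a loop. -/
def Cen (Q : Type*) [Lp Q] := {z : Q // Central z}

namespace Cen

theorem c1 (z : Cen Q) (x : Q) : x * z.1 = z.1 * x := (central_iff.1 z.2).1 x
theorem c2 (z : Cen Q) (x y : Q) : (z.1 * x) * y = z.1 * (x * y) := (central_iff.1 z.2).2.1 x y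
theorem c3 (z : Cen Q) (x y : Q) : x * (z.1 * y) = z.1 * (x * y) := (central_iff.1 z.2).2.2 x y

instance : CommGroup (Cen Q) where
  mul a b := ⟨a.1 * b.1, central_iff.2 ⟨fun x => by rw [a.c3, a.c2, b.c1],
    fun x y => by rw [a.c2, a.c2, a.c2, b.c2], fun x y => by rw [a.c2, a.c2, a.c3, b.c3]⟩⟩
  one := ⟨1, central_iff.2 ⟨fun x => by rw [mul_one, one_mul], fun x y => by rw [one_mul, one_mul],
    fun x y => by rw [one_mul, one_mul]⟩⟩
  inv a := ⟨ld a.1 1, central_iff.2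
    ⟨fun x => lcan (a := a.1) (by rw [← a.c3, ← a.c2, mul_ld, mul_one, one_mul]),
    fun x y => lcan (a := a.1) (by rw [← a.c2, ← a.c2, ← a.c2, mul_ld, one_mul, one_mul]),
    fun x y => lcan (a := a.1) (by rw [← a.c3, ← a.c2, ← a.c2, mul_ld, one_mul, one_mul])⟩⟩
  mul_assoc a b c := Subtype.ext (a.c2 b.1 c.1)
  one_mul a := Subtype.ext (one_mul a.1)
  mul_one a := Subtype.ext (mul_one a.1)
  mul_comm a b := Subtype.ext (b.c1 a.1)
  inv_mul_cancel a := Subtype.ext ((a.c1 _).trans (mul_ld _ _))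

instance : MulAction (Cen Q) Q where
  smul c x := c.1 * x
  one_smul x := one_mul x
  mul_smul a b x := a.c2 b.1 x

instance [Finite Q] : Finite (Cen Q) := Subtype.finite

theorem smul_def (c : Cen Q) (x : Q) : c • x = c.1 * x := rfl

theorem iter (c : Cen Q) (n : ℕ) (x : Q) : (fun y => c.1 * y)^[n] x = (c ^ n).1 * x := by
  induction n with
  | zero => exact (one_mul x).symm
  | succ n ih => rw [Function.iterate_succ_apply', ih, pow_succ', ← c.c2]; rfl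

end Cen

variable (C : Subgroup (Cen Q))

theorem sm_mul (c : C) (x y : Q) : (c • x) * y = c • (x * y) := c.1.c2 x y
theorem mul_sm (c : C) (x y : Q) : x * (c • y) = c • (x * y) := c.1.c3 x y
theorem ld_sm (c : C) (x y : Q) : ld x (c • y) = c • ld x y :=
  lcan (a := x) (by rw [mul_ld, mul_sm, mul_ld])
theorem sm_ld (c : C) (x y : Q) : ld (c • x) y = c⁻¹ • ld x y :=
  lcan (a := c • x) (by rw [mul_ld, sm_mul, mul_sm, smul_inv_smul, mul_ld])
theorem sm_rd (c : C) (x y : Q) : rd (c • x) y = c • rd x y :=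
  rcan (a := y) (by rw [rd_mul, sm_mul, rd_mul])
theorem rd_sm (c : C) (x y : Q) : rd x (c • y) = c⁻¹ • rd x y :=
  rcan (a := c • y) (by rw [rd_mul, mul_sm, sm_mul, smul_inv_smul, rd_mul])

theorem sm_inj {c d : C} {x : Q} (h : c • x = d • x) : c = d :=
  Subtype.ext (Subtype.ext (rcan h))

/-- The quotient of a loop by a central subgroup. -/
def QQ := MulAction.orbitRel.Quotient C Q

def QQ.mk (x : Q) : QQ C := Quotient.mk'' x

theorem QQ.eq {x y : Q} : QQ.mk C x = QQ.mk C y ↔ ∃ c : C, c • y = x := Quotient.eq''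

theorem QQ.surj : Function.Surjective (QQ.mk C) := Quotient.mk''_surjective

instance : Lp (QQ C) where
  mul := Quotient.map₂' (· * ·) (by
    rintro _ x ⟨c, rfl⟩ _ y ⟨d, rfl⟩
    exact ⟨d * c, by simp only [sm_mul, mul_sm, mul_smul]⟩)
  one := QQ.mk C 1
  one_mul := by rintro ⟨x⟩; exact congrArg (QQ.mk C) (one_mul x)
  mul_one := by rintro ⟨x⟩; exact congrArg (QQ.mk C) (mul_one x)
  ld := Quotient.map₂' ld (by
    rintro _ x ⟨c, rfl⟩ _ y ⟨d, rfl⟩
    exact ⟨d * c⁻¹, by simp only [sm_ld, ld_sm, mul_smul]⟩)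
  rd := Quotient.map₂' rd (by
    rintro _ x ⟨c, rfl⟩ _ y ⟨d, rfl⟩
    exact ⟨d⁻¹ * c, by simp only [sm_rd, rd_sm, mul_smul]⟩)
  mul_ld := by rintro ⟨x⟩ ⟨y⟩; exact congrArg (QQ.mk C) (mul_ld x y)
  ld_mul := by rintro ⟨x⟩ ⟨y⟩; exact congrArg (QQ.mk C) (ld_mul x y)
  rd_mul := by rintro ⟨x⟩ ⟨y⟩; exact congrArg (QQ.mk C) (rd_mul x y)
  mul_rd := by rintro ⟨x⟩ ⟨y⟩; exact congrArg (QQ.mk C) (mul_rd x y)

theorem QQ.mk_mul (x y : Q) : QQ.mk C (x * y) = QQ.mk C x * QQ.mk C y := rfl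
theorem QQ.mk_ld (x y : Q) : QQ.mk C (ld x y) = ld (QQ.mk C x) (QQ.mk C y) := rfl
theorem QQ.mk_rd (x y : Q) : QQ.mk C (rd x y) = rd (QQ.mk C x) (QQ.mk C y) := rfl
theorem QQ.mk_one : QQ.mk C 1 = 1 := rfl

instance [Finite Q] : Finite (QQ C) := Finite.of_surjective _ (QQ.surj C)

theorem QQ.card : Nat.card Q = Nat.card (QQ C) * Nat.card C := by
  rw [← Nat.card_prod]
  refine Nat.card_congr (MulAction.selfEquivOrbitsQuotientProd fun b => ?_)
  rw [eq_bot_iff]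
  intro c hc
  exact sm_inj C (hc.trans (one_smul C b).symm)

theorem QQ.suf (h : SUF Q) : SUF (QQ C) := by
  constructor
  · rintro ⟨a⟩ ⟨u⟩ ⟨t⟩
    exact congrArg (QQ.mk C) (h.1 a u t)
  · rintro ⟨a⟩ ⟨u⟩ ⟨t⟩
    exact congrArg (QQ.mk C) (h.2 a u t)

theorem exists_coord : ∃ ψ : Q → C, ∀ (c : C) (x : Q), ψ (c • x) = c * ψ x := by
  have h : ∀ x : Q, ∃ c : C, c • Function.surjInv (QQ.surj C) (QQ.mk C x) = x := fun x =>
    (QQ.eq C).1 (Function.surjInv_eq (QQ.surj C) _).symm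
  choose ψ hψ using h
  refine ⟨ψ, fun c x => ?_⟩
  have e : QQ.mk C (c • x) = QQ.mk C x := (QQ.eq C).2 ⟨c, rfl⟩
  have := hψ (c • x)
  rw [e] at this
  exact sm_inj C (this.trans (by rw [mul_smul, hψ]))

theorem lift_central {p q : ℕ} (hp : ∀ c : C, c ^ p = 1) (hpq : Nat.Coprime p q) (hS : SUF Q)
    (s : Cen (QQ C)) (hs : s ^ q = 1) : ∃ t : Cen Q, QQ.mk C t.1 = s.1 ∧ t ^ q = 1 := by
  obtain ⟨ψ, hψ⟩ := exists_coord C
  let L : Layer Q Unit (Additive C) :=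
    { r := fun x y => QQ.mk C x = QQ.mk C y
      ψ := fun x => Additive.ofMul (ψ x)
      π := fun _ => 0
      r_refl := fun _ => rfl
      r_symm := Eq.symm
      r_trans := Eq.trans
      r_mul := fun h1 h2 => by rw [QQ.mk_mul, QQ.mk_mul, h1, h2]
      r_ld := fun h1 h2 => by rw [QQ.mk_ld, QQ.mk_ld, h1, h2]
      r_rd := fun h1 h2 => by rw [QQ.mk_rd, QQ.mk_rd, h1, h2]
      ψ_mul := fun h1 h2 => by
        obtain ⟨c, rfl⟩ := (QQ.eq C).1 h1
        obtain ⟨d, rfl⟩ := (QQ.eq C).1 h2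
        simp only [sm_mul, mul_sm, hψ, ofMul_mul]
        abel
      π_mul := fun _ _ => rfl
      π_surj := fun _ => ⟨1, rfl⟩ }
  obtain ⟨z, hz⟩ := QQ.surj C s.1
  have hit : ∀ n x, QQ.mk C ((fun x => z * x)^[n] x) = (fun y => s.1 * y)^[n] (QQ.mk C x) := by
    intro n x
    induction n with
    | zero => rfl
    | succ n ih =>
      rw [Function.iterate_succ_apply', Function.iterate_succ_apply', QQ.mk_mul, ih, hz]
  obtain ⟨t, h1, h2, h3⟩ := Layer.lift (L := L) (p := p) (q := q) (fun x y h => by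
      obtain ⟨c, rfl⟩ := (QQ.eq C).1 h.1
      have h2 : Additive.ofMul (ψ (c • y)) - Additive.ofMul (ψ y) = 0 := h.2
      rw [hψ, ofMul_mul, add_sub_cancel_right] at h2
      rw [show c = 1 from h2, one_smul]) (fun c => hp c.toMul) hpq hS z
    (fun x => by
      change QQ.mk C _ = QQ.mk C _
      simp only [QQ.mk_mul, hz, s.c1])
    (fun x y => by
      change QQ.mk C _ = QQ.mk C _
      simp only [QQ.mk_mul, hz, s.c2])
    (fun x y => by
      change QQ.mk C _ = QQ.mk C _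
      simp only [QQ.mk_mul, hz, s.c3])
    (fun x => by
      change QQ.mk C _ = QQ.mk C _
      rw [hit, s.iter, hs]
      exact one_mul _)
  refine ⟨⟨t, h1⟩, Eq.trans h2 hz, Subtype.ext ?_⟩
  have := Cen.iter ⟨t, h1⟩ q 1
  rw [mul_one] at this
  rw [← this]
  exact congrFun h3 1

/-- The upper central series. -/
def Zs (Q : Type*) [Lp Q] : ℕ → Set Q
  | 0 => {1}
  | n + 1 => {z | ∀ x y : Q, rd (z * x) (x * z) ∈ Zs Q n ∧ rd ((z * x) * y) (z * (x * y)) ∈ Zs Q n ∧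
      rd ((x * z) * y) (x * (z * y)) ∈ Zs Q n ∧ rd ((x * y) * z) (x * (y * z)) ∈ Zs Q n}

def Nilp (Q : Type*) [Lp Q] : Prop := ∃ n, ∀ z, z ∈ Zs Q n

theorem QQ.nilp (h : Nilp Q) : Nilp (QQ C) := by
  have key : ∀ n z, z ∈ Zs Q n → QQ.mk C z ∈ Zs (QQ C) n := by
    intro n
    induction n with
    | zero => rintro z rfl; rfl
    | succ n ih =>
      rintro z hz ⟨x⟩ ⟨y⟩
      exact ⟨ih _ (hz x y).1, ih _ (hz x y).2.1, ih _ (hz x y).2.2.1, ih _ (hz x y).2.2.2⟩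
  obtain ⟨n, hn⟩ := h
  exact ⟨n, by rintro ⟨z⟩; exact key n z (hn z)⟩

theorem Nilp.exists_central (h : Nilp Q) [Nontrivial Q] : ∃ z : Cen Q, z ≠ 1 := by
  by_contra hc
  have one : ∀ x y : Q, rd x y = 1 → x = y := fun x y e => by rw [← rd_mul x y, e, one_mul]
  have key : ∀ n z, z ∈ Zs Q n → z = 1 := by
    intro n
    induction n with
    | zero => exact fun z hz => hz
    | succ n ih =>
      intro z hz
      by_contra hz1
      exact hc ⟨⟨z, fun x y => ⟨one _ _ (ih _ (hz x y).1), one _ _ (ih _ (hz x y).2.1),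
        one _ _ (ih _ (hz x y).2.2.1), one _ _ (ih _ (hz x y).2.2.2)⟩⟩,
        fun e => hz1 (congrArg Subtype.val e)⟩
  obtain ⟨n, hn⟩ := h
  obtain ⟨x, hx⟩ := exists_ne (1 : Q)
  exact hx (key n x (hn x))

end Pool.Agent.Lib.MP_ca1f03_al.Nil
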