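import Pool.Agent.Lib.MP_ca1f03_al.Nil.Quot
import Pool.Agent.Lib.MP_ca1f03_al.Nil.Free

namespace Pool.Agent.Lib.MP_ca1f03_al.Nil

open Lp

variable (k : Type*) [CommRing k]

/-- The ascending unipotent filtration of the loop algebra. -/
noncomputable def UU (Q : Type*) [Lp Q] : ℕ → Submodule k (MonoidAlgebra k Q)
  | 0 => ⊥
  | i + 1 =>
    { carrier := {v | ∀ q : Q, bas k q * v - v ∈ UU Q i ∧ v * bas k q - v ∈ UU Q i}
      zero_mem' := fun q => by simp
      add_mem' := fun {a b} ha hb q =>
        ⟨by rw [mul_add, add_sub_add_comm]; exact add_mem (ha q).1 (hb q).1,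
          by rw [add_mul, add_sub_add_comm]; exact add_mem (ha q).2 (hb q).2⟩
      smul_mem' := fun c a ha q =>
        ⟨by rw [mul_smul_comm, ← smul_sub]; exact Submodule.smul_mem _ _ (ha q).1,
          by rw [smul_mul_assoc, ← smul_sub]; exact Submodule.smul_mem _ _ (ha q).2⟩ }

variable {k} {Q : Type*} [Lp Q]

theorem mem_UU {i : ℕ} {v : MonoidAlgebra k Q} : v ∈ UU k Q (i + 1) ↔
    ∀ q : Q, bas k q * v - v ∈ UU k Q i ∧ v * bas k q - v ∈ UU k Q i := Iff.rfl

theorem mono_span {m : ℕ} {a : MonoidAlgebra k Q} (h : Mono (bas k) m a) :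
    a ∈ Submodule.span k (Set.range fun q : Q => bas k q - 1) := by
  induction h with
  | base q => exact Submodule.subset_span ⟨q, rfl⟩
  | @mul i j a b h1 h2 ha hb =>
    clear h1 h2
    induction ha using Submodule.span_induction with
    | mem a ha =>
      obtain ⟨q, rfl⟩ := ha
      induction hb using Submodule.span_induction with
      | mem b hb =>
        obtain ⟨r, rfl⟩ := hb
        have e : (bas k q - 1) * (bas k r - 1) =
            (bas k (q * r) - 1) - (bas k q - 1) - (bas k r - 1) := by
          simp only [bas_mul, sub_mul, mul_sub, mul_one, one_mul]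
          abel
        beta_reduce
        rw [e]
        exact sub_mem (sub_mem (Submodule.subset_span ⟨_, rfl⟩) (Submodule.subset_span ⟨_, rfl⟩))
          (Submodule.subset_span ⟨_, rfl⟩)
      | zero => rw [mul_zero]; exact zero_mem _
      | add x y _ _ hx hy => rw [mul_add]; exact add_mem hx hy
      | smul c x _ hx => rw [mul_smul_comm]; exact Submodule.smul_mem _ _ hx
    | zero => rw [zero_mul]; exact zero_mem _
    | add x y _ _ hx hy => rw [add_mul]; exact add_mem hx hy
    | smul c x _ hx => rw [smul_mul_assoc]; exact Submodule.smul_mem _ _ hx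

theorem span_mul_UU {j : ℕ} {a v : MonoidAlgebra k Q}
    (ha : a ∈ Submodule.span k (Set.range fun q : Q => bas k q - 1)) (hv : v ∈ UU k Q (j + 1)) :
    a * v ∈ UU k Q j ∧ v * a ∈ UU k Q j := by
  induction ha using Submodule.span_induction with
  | mem a ha =>
    obtain ⟨q, rfl⟩ := ha
    beta_reduce
    rw [sub_mul, mul_sub, one_mul, mul_one]
    exact hv q
  | zero => rw [zero_mul, mul_zero]; exact ⟨zero_mem _, zero_mem _⟩
  | add x y _ _ hx hy => rw [add_mul, mul_add]; exact ⟨add_mem hx.1 hy.1, add_mem hx.2 hy.2⟩
  | smul c x _ hx =>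
    rw [smul_mul_assoc, mul_smul_comm]
    exact ⟨Submodule.smul_mem _ _ hx.1, Submodule.smul_mem _ _ hx.2⟩

theorem FF_bot {N : ℕ} (hN : ∀ v, v ∈ UU k Q N) {a : MonoidAlgebra k Q}
    (ha : a ∈ FF k (bas k : Q → _) (2 ^ N)) : a = 0 := by
  have key : ∀ i j, i + j = N → ∀ m a, Mono (bas k : Q → _) m a → 2 ^ i ≤ m → a ∈ UU k Q j := by
    intro i
    induction i with
    | zero =>
      intro j hj m a _ _
      rw [zero_add] at hj
      exact hj ▸ hN a
    | succ i ih =>
      intro j hj m a ha hm
      have h1 : 1 ≤ 2 ^ i := Nat.one_le_two_pow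
      cases ha with
      | base q => omega
      | @mul i1 i2 b c hb hc =>
        rcases le_total i1 i2 with h | h
        · exact (span_mul_UU (mono_span hb) (ih (j + 1) (by omega) _ _ hc (by omega))).1
        · exact (span_mul_UU (mono_span hc) (ih (j + 1) (by omega) _ _ hb (by omega))).2
  have : FF k (bas k : Q → _) (2 ^ N) ≤ ⊥ := by
    refine Submodule.span_le.2 ?_
    rintro a ⟨m, hm, ha⟩
    exact key N 0 rfl m a ha hm
  exact this ha

theorem cen_assoc (z : Cen Q) (a v : MonoidAlgebra k Q) :
    a * (bas k z.1 * v) = bas k z.1 * (a * v) ∧ (bas k z.1 * v) * a = bas k z.1 * (v * a) := by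
  induction a using MonoidAlgebra.induction_linear with
  | zero => simp
  | add x y hx hy => simp only [add_mul, mul_add, hx.1, hx.2, hy.1, hy.2, and_self]
  | single x r =>
    induction v using MonoidAlgebra.induction_linear with
    | zero => simp
    | add u w hu hw => simp only [add_mul, mul_add, hu.1, hu.2, hw.1, hw.2, and_self]
    | single y s =>
      simp only [bas, MonoidAlgebra.single_mul_single, z.c2, z.c3, one_mul, and_self]

/-- The quotient map as a homomorphism. -/
def QQ.hom (C : Subgroup (Cen Q)) : Q →* QQ C where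
  toFun := QQ.mk C
  map_one' := rfl
  map_mul' _ _ := rfl

theorem UU_step [Finite Q] {p : ℕ} (hp : p.Prime) (hk : (p : k) = 0) (z : Cen Q) (hz : z ^ p = 1)
    {N : ℕ} (hN : ∀ v, v ∈ UU k (QQ (Subgroup.zpowers z)) N) (v : MonoidAlgebra k Q) :
    v ∈ UU k Q (N * p) := by
  set C := Subgroup.zpowers z
  let T : Module.End k (MonoidAlgebra k Q) := LinearMap.mulLeft k (bas k z.1)
  have hT : ∀ (n : ℕ) (x : Q), (T ^ n) (bas k x) = bas k ((z ^ n).1 * x) := by
    intro n x
    induction n with
    | zero => exact congrArg (bas k) (one_mul x).symm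
    | succ n ih =>
      rw [pow_succ', Module.End.mul_apply, ih, pow_succ']
      change bas k z.1 * _ = bas k ((z.1 * (z ^ n).1) * x)
      rw [z.c2, bas_mul k z.1]
  have hTp : T ^ p = 1 := by
    refine LinearMap.ext fun w => ?_
    induction w using MonoidAlgebra.induction_linear with
    | zero => simp
    | add x y hx hy => rw [map_add, map_add, hx, hy]
    | single x r =>
      have e : MonoidAlgebra.single x r = r • bas k x := by simp [bas]
      rw [e, map_smul, map_smul, hT, hz]
      exact congrArg (fun w => r • bas k w) (one_mul x)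
  have hD : (T - 1) ^ p = 0 := by
    obtain ⟨r, hr⟩ := Commute.exists_add_pow_prime_eq hp (Commute.one_right (T - 1))
    have e : (p : Module.End k (MonoidAlgebra k Q)) = 0 := by
      rw [← map_natCast (algebraMap k _), hk, map_zero]
    rw [sub_add_cancel, hTp, e, one_pow, zero_mul, zero_mul, zero_mul, add_zero] at hr
    exact right_eq_add.1 hr
  have comm : ∀ (j : ℕ) (q : Q) (w : MonoidAlgebra k Q),
      bas k q * ((T - 1) ^ j) w = ((T - 1) ^ j) (bas k q * w) ∧
        ((T - 1) ^ j) w * bas k q = ((T - 1) ^ j) (w * bas k q) := by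
    intro j q w
    induction j with
    | zero => exact ⟨rfl, rfl⟩
    | succ j ih =>
      simp only [pow_succ', Module.End.mul_apply, LinearMap.sub_apply, Module.End.one_apply,
        mul_sub, sub_mul, ← ih.1, ← ih.2, T, LinearMap.mulLeft_apply,
        (cen_assoc z _ _).1, (cen_assoc z _ _).2, and_self]
  have ker : ∀ w, lm k (QQ.hom C) w = 0 → w ∈ LinearMap.range (T - 1) := by
    have h1 : ∀ w : MonoidAlgebra k Q, w - MonoidAlgebra.mapDomainLinearMap k k
        (Function.surjInv (QQ.surj C)) (lm k (QQ.hom C) w) ∈ LinearMap.range (T - 1) := by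
      intro w
      induction w using MonoidAlgebra.induction_linear with
      | zero => simp
      | add x y hx hy =>
        rw [map_add, map_add, add_sub_add_comm]
        exact add_mem hx hy
      | single x r =>
        have e : MonoidAlgebra.single x r = r • bas k x := by simp [bas]
        rw [e, map_smul, map_smul, ← smul_sub, lm_bas]
        refine Submodule.smul_mem _ _ ?_
        obtain ⟨c, hc⟩ := (QQ.eq C).1 (Function.surjInv_eq (QQ.surj C) (QQ.mk C x)).symm
        obtain ⟨n, hn⟩ := mem_powers_iff_mem_zpowers.2 c.2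
        rw [bas, bas, MonoidAlgebra.mapDomainLinearMap_single]
        change bas k x - bas k (Function.surjInv (QQ.surj C) (QQ.mk C x)) ∈ _
        generalize Function.surjInv (QQ.surj C) (QQ.mk C x) = y at hc
        have e2 : bas k x = (T ^ n) (bas k y) := by
          rw [hT, ← hc]
          exact congrArg (fun c : Cen Q => bas k (c.1 * y)) hn.symm
        refine ⟨(∑ i ∈ Finset.range n, T ^ i) (bas k y), ?_⟩
        rw [← Module.End.mul_apply, mul_geom_sum, e2]
        rfl
    intro w hw
    have := h1 w
    rwa [hw, map_zero, sub_zero] at this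
  have main : ∀ d j, j + d = p → ∀ w, ((T - 1) ^ j) w ∈ UU k Q (N * d) := by
    intro d
    induction d with
    | zero =>
      intro j hj w
      rw [add_zero] at hj
      rw [hj, hD]
      exact zero_mem _
    | succ d ih =>
      intro j hj
      have inner : ∀ i w, lm k (QQ.hom C) w ∈ UU k (QQ C) i →
          ((T - 1) ^ j) w ∈ UU k Q (N * d + i) := by
        intro i
        induction i with
        | zero =>
          intro w hw
          obtain ⟨w', rfl⟩ := ker w hw
          rw [← Module.End.mul_apply, ← pow_succ]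
          exact ih (j + 1) (by omega) w'
        | succ i ihi =>
          intro w hw
          refine mem_UU.2 fun q => ?_
          rw [(comm j q w).1, (comm j q w).2, ← map_sub, ← map_sub]
          refine ⟨ihi _ ?_, ihi _ ?_⟩
          · rw [map_sub, lm_mul, lm_bas]; exact (hw _).1
          · rw [map_sub, lm_mul, lm_bas]; exact (hw _).2
      exact fun w => inner N w (hN _)
  exact main p 0 (zero_add p) v

end Pool.Agent.Lib.MP_ca1f03_al.Nil
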